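import Mathlib

namespace Pool.Agent.H77.RL

open Finset

lemma aff_sep {a b s r t : ℝ} (hsr : s < r) (hrt : r < t) (h : (a + s * b) * (a + r * b) < 0) :
    (a + s * b) * (a + t * b) < 0 := by
  have e : (a + s * b) * (a + t * b) * (r - s) =
      (a + s * b) * (a + r * b) * (t - s) - (t - r) * (a + s * b)^2 := by ring
  by_contra hcon
  push Not at hcon
  have h1 : 0 ≤ (a + s * b) * (a + t * b) * (r - s) := mul_nonneg hcon (by linarith)
  have h2 : (a + s * b) * (a + r * b) * (t - s) < 0 := mul_neg_of_neg_of_pos h (by linarith)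
  have h3 : 0 ≤ (t - r) * (a + s * b)^2 := mul_nonneg (by linarith) (sq_nonneg _)
  linarith

lemma aff_sep' {a b s r t : ℝ} (hsr : s < r) (hrt : r < t) (h : (a + r * b) * (a + t * b) < 0) :
    (a + s * b) * (a + t * b) < 0 := by
  have e : (a + s * b) * (a + t * b) * (t - r) =
      (a + r * b) * (a + t * b) * (t - s) - (r - s) * (a + t * b)^2 := by ring
  by_contra hcon
  push Not at hcon
  have h1 : 0 ≤ (a + s * b) * (a + t * b) * (t - r) := mul_nonneg hcon (by linarith)
  have h2 : (a + r * b) * (a + t * b) * (t - s) < 0 := mul_neg_of_neg_of_pos h (by linarith)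
  have h3 : 0 ≤ (r - s) * (a + t * b)^2 := mul_nonneg (by linarith) (sq_nonneg _)
  linarith

/-- before its zero an affine function keeps its sign -/
lemma aff_same {a b s r p : ℝ} (hsr : s < r) (hrp : r < p) (hp : a + p * b = 0) :
    0 ≤ (a + s * b) * (a + r * b) := by
  have e : (a + s * b) * (a + r * b) = (p - s) * (p - r) * b^2 := by
    have : a = - (p * b) := by linarith
    rw [this]; ring
  rw [e]
  exact mul_nonneg (mul_nonneg (by linarith) (by linarith)) (sq_nonneg _)

lemma aff_same' {a b s r p : ℝ} (hps : p < s) (hsr : s < r) (hp : a + p * b = 0) :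
    0 ≤ (a + s * b) * (a + r * b) := by
  have e : (a + s * b) * (a + r * b) = (s - p) * (r - p) * b^2 := by
    have : a = - (p * b) := by linarith
    rw [this]; ring
  rw [e]
  exact mul_nonneg (mul_nonneg (by linarith) (by linarith)) (sq_nonneg _)

lemma aff_root {a b s t : ℝ} (hst : s < t) (h : (a + s * b) * (a + t * b) < 0) :
    ∃ p, s < p ∧ p < t ∧ a + p * b = 0 := by
  have hb : b ≠ 0 := by
    intro hb
    rw [hb] at h
    simp only [mul_zero, add_zero] at h
    have := mul_self_nonneg a
    linarith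
  refine ⟨-a / b, ?_, ?_, by field_simp; ring⟩
  · by_contra hcon
    push Not at hcon
    have hp : a + (-a / b) * b = 0 := by field_simp; ring
    rcases hcon.lt_or_eq with h1 | h1
    · have := aff_same' h1 hst hp
      linarith
    · rw [h1] at hp
      rw [hp, zero_mul] at h
      exact lt_irrefl _ h
  · by_contra hcon
    push Not at hcon
    have hp : a + (-a / b) * b = 0 := by field_simp; ring
    rcases hcon.lt_or_eq with h1 | h1
    · have := aff_same hst h1 hp
      linarith
    · rw [← h1] at hp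
      rw [hp, mul_zero] at h
      exact lt_irrefl _ h

theorem path_induct {κ : Type*} [DecidableEq κ] (W : Finset κ) (a b : κ → ℝ) (F : ℝ → ℤ)
    (hgen : ∀ D1 ∈ W, ∀ D2 ∈ W, D1 ≠ D2 → ∀ r, 0 ≤ r → r ≤ 1 →
      ¬ (a D1 + r * b D1 = 0 ∧ a D2 + r * b D2 = 0))
    (h0 : ∀ s t, 0 ≤ s → s < t → t ≤ 1 →
      (∀ D ∈ W, 0 < (a D + s * b D) * (a D + t * b D)) → F s = F t)
    (h1 : ∀ s t, 0 ≤ s → s < t → t ≤ 1 → ∀ D0 ∈ W, (a D0 + s * b D0) * (a D0 + t * b D0) < 0 →
      (∀ D ∈ W, D ≠ D0 → 0 < (a D + s * b D) * (a D + t * b D)) → F s = F t) :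
    ∀ N : ℕ, ∀ s t, 0 ≤ s → s < t → t ≤ 1 →
      (∀ D ∈ W, a D + s * b D ≠ 0) → (∀ D ∈ W, a D + t * b D ≠ 0) →
      (W.filter (fun D => (a D + s * b D) * (a D + t * b D) < 0)).card ≤ N → F s = F t := by
  classical
  intro N
  induction N using Nat.strong_induction_on with
  | _ N ih =>
    intro s t hs hst ht hsn htn hN
    set X := W.filter (fun D => (a D + s * b D) * (a D + t * b D) < 0) with hX
    have hpos : ∀ D ∈ W, D ∉ X → 0 < (a D + s * b D) * (a D + t * b D) := by
      intro D hD hDX
      rcases lt_or_gt_of_ne (mul_ne_zero (hsn D hD) (htn D hD)) with h | h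
      · exact absurd (Finset.mem_filter.2 ⟨hD, h⟩) hDX
      · exact h
    by_cases hX0 : X = ∅
    · apply h0 s t hs hst ht
      intro D hD
      exact hpos D hD (by rw [hX0]; simp)
    obtain ⟨D1, hD1⟩ := Finset.nonempty_iff_ne_empty.2 hX0
    by_cases hX1 : ∀ D ∈ X, D = D1
    · have hD1' := Finset.mem_filter.1 hD1
      exact h1 s t hs hst ht D1 hD1'.1 hD1'.2 (fun D hD hne => hpos D hD (fun h => hne (hX1 D h)))
    push Not at hX1
    obtain ⟨D2, hD2, hne⟩ := hX1
    -- a middle point separating the two roots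
    have key : ∀ D1 ∈ X, ∀ D2 ∈ X, ∀ p1 p2, s < p1 → p1 < p2 → p2 < t →
        a D1 + p1 * b D1 = 0 → a D2 + p2 * b D2 = 0 → F s = F t := by
      intro D1 hD1 D2 hD2 p1 p2 hsp hpp hpt hr1 hr2
      have hfin : (⋃ D ∈ W, {r : ℝ | a D + r * b D = 0}).Finite := by
        apply Set.Finite.biUnion (Finset.finite_toSet W)
        intro D hD
        apply Set.Subsingleton.finite
        intro u hu v hv
        simp only [Set.mem_setOf_eq] at hu hv
        by_contra huv
        have h3 : (u - v) * b D = 0 := by linarith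
        rcases mul_eq_zero.1 h3 with h | h
        · exact huv (by linarith)
        · apply hsn D hD
          rw [h] at hu ⊢
          linarith
      obtain ⟨r, hr, hrn⟩ := (Set.Ioo_infinite hpp).exists_notMem_finite hfin
      have hrn' : ∀ D ∈ W, a D + r * b D ≠ 0 := by
        intro D hD h
        apply hrn
        simp only [Set.mem_iUnion]
        exact ⟨D, hD, h⟩
      have hsr : s < r := hsp.trans hr.1
      have hrt : r < t := hr.2.trans hpt
      have c1 : (W.filter (fun D => (a D + s * b D) * (a D + r * b D) < 0)).card < X.card := by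
        apply Finset.card_lt_card
        rw [Finset.ssubset_iff_of_subset]
        · refine ⟨D2, hD2, ?_⟩
          rw [Finset.mem_filter]
          push Not
          intro _
          exact aff_same hsr hr.2 hr2
        · intro D hD
          rw [Finset.mem_filter] at hD
          exact Finset.mem_filter.2 ⟨hD.1, aff_sep hsr hrt hD.2⟩
      have c2 : (W.filter (fun D => (a D + r * b D) * (a D + t * b D) < 0)).card < X.card := by
        apply Finset.card_lt_card
        rw [Finset.ssubset_iff_of_subset]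
        · refine ⟨D1, hD1, ?_⟩
          rw [Finset.mem_filter]
          push Not
          intro _
          exact aff_same' hr.1 hrt hr1
        · intro D hD
          rw [Finset.mem_filter] at hD
          exact Finset.mem_filter.2 ⟨hD.1, aff_sep' hsr hrt hD.2⟩
      rw [ih _ (lt_of_lt_of_le c1 hN) s r hs hsr (by linarith) hsn hrn' le_rfl,
        ih _ (lt_of_lt_of_le c2 hN) r t (by linarith) hrt ht hrn' htn le_rfl]
    have hD1' := Finset.mem_filter.1 hD1
    have hD2' := Finset.mem_filter.1 hD2
    obtain ⟨p1, hs1, ht1, hr1⟩ := aff_root hst hD1'.2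
    obtain ⟨p2, hs2, ht2, hr2⟩ := aff_root hst hD2'.2
    rcases lt_trichotomy p1 p2 with h | h | h
    · exact key D1 hD1 D2 hD2 p1 p2 hs1 h ht2 hr1 hr2
    · exfalso
      subst h
      exact hgen D1 hD1'.1 D2 hD2'.1 (Ne.symm hne) p1 (by linarith) (by linarith) ⟨hr1, hr2⟩
    · exact key D2 hD2 D1 hD1 p2 p1 hs2 h ht1 hr2 hr1

end Pool.Agent.H77.RL
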