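import Pool.Agent.H77.RL.Half
import Pool.Agent.H77.RL.Path

namespace Pool.Agent.H77.RL

open Finset

section

variable {ι : Type*} [Fintype ι] [DecidableEq ι] {E : Type*} [AddCommGroup E] [Module ℝ E]

open Classical in
/-- signed number of the sets of Radon type -/
noncomputable def sgnSum (V : ι → E) : ℤ :=
  ∑ A ∈ univ.filter (fun A : Finset ι => Rad V A), (-1 : ℤ) ^ A.card

lemma sgnSum_half {V V' : ι → E} {B : Finset ι} (i0 : ι) (hi : i0 ∈ B)
    (h : ∀ A, Rad V A ↔ Rad V' A ∧ A ≠ B ∧ A ≠ Bᶜ) (hB : Rad V' B) :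
    sgnSum V = sgnSum V' - ((-1 : ℤ) ^ B.card + (-1 : ℤ) ^ Bᶜ.card) := by
  classical
  have hne : B ≠ Bᶜ := by
    intro hh
    have : i0 ∈ Bᶜ := hh ▸ hi
    exact (Finset.mem_compl.1 this) hi
  have e : univ.filter (fun A : Finset ι => Rad V' A) =
      insert B (insert Bᶜ (univ.filter (fun A : Finset ι => Rad V A))) := by
    ext A
    simp only [Finset.mem_insert, Finset.mem_filter, Finset.mem_univ, true_and]
    rw [h A]
    constructor
    · intro hA
      by_cases h1 : A = B
      · exact Or.inl h1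
      · by_cases h2 : A = Bᶜ
        · exact Or.inr (Or.inl h2)
        · exact Or.inr (Or.inr ⟨hA, h1, h2⟩)
    · rintro (rfl | rfl | h3)
      · exact hB
      · exact hB.compl
      · exact h3.1
  have e2 : sgnSum V' = (-1 : ℤ) ^ B.card + ((-1 : ℤ) ^ Bᶜ.card + sgnSum V) := by
    unfold sgnSum
    rw [e, Finset.sum_insert, Finset.sum_insert]
    · rw [Finset.mem_filter, h]
      tauto
    · rw [Finset.mem_insert, Finset.mem_filter, h]
      tauto
  rw [e2]; ring

lemma sign_pair {n : ℕ} (hn : Even n) {i0 : ι} {D B B' : Finset ι} (hD : D.card + 1 = n)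
    (hiD : i0 ∉ D) (hB : ∀ i ∈ insert i0 D, (i ∈ B ↔ i ∈ B'))
    (hB' : ∀ i ∉ insert i0 D, (i ∈ B ↔ i ∉ B')) :
    (-1 : ℤ) ^ B.card + (-1 : ℤ) ^ Bᶜ.card = (-1 : ℤ) ^ B'.card + (-1 : ℤ) ^ B'ᶜ.card := by
  classical
  have hc : ∀ X : Finset ι, (-1 : ℤ) ^ X.card * (-1 : ℤ) ^ Xᶜ.card = (-1 : ℤ) ^ (Fintype.card ι) := by
    intro X
    rw [← pow_add, Finset.card_add_card_compl]
  have hcard : (insert i0 D).card = n := by rw [Finset.card_insert_of_notMem hiD, hD]
  rcases Nat.even_or_odd (Fintype.card ι) with hm | hm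
  · have hpar : Even (B.card + B'.card) := by
      have h1 : B.card = (B ∩ insert i0 D).card + (B \ insert i0 D).card :=
        (Finset.card_inter_add_card_sdiff B (insert i0 D)).symm
      have h2 : B'.card = (B' ∩ insert i0 D).card + (B' \ insert i0 D).card :=
        (Finset.card_inter_add_card_sdiff B' (insert i0 D)).symm
      have h3 : B' ∩ insert i0 D = B ∩ insert i0 D := by
        ext i
        simp only [Finset.mem_inter]
        constructor
        · rintro ⟨h, h'⟩
          exact ⟨(hB i h').2 h, h'⟩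
        · rintro ⟨h, h'⟩
          exact ⟨(hB i h').1 h, h'⟩
      have h4 : B' \ insert i0 D = (insert i0 D)ᶜ \ B := by
        ext i
        simp only [Finset.mem_sdiff, Finset.mem_compl]
        constructor
        · rintro ⟨h, h'⟩
          exact ⟨h', fun h'' => ((hB' i h').1 h'') h⟩
        · rintro ⟨h, h'⟩
          refine ⟨?_, h⟩
          by_contra h''
          exact h' ((hB' i h).2 h'')
      have h5 : B \ insert i0 D = (insert i0 D)ᶜ ∩ B := by
        ext i
        simp only [Finset.mem_sdiff, Finset.mem_compl, Finset.mem_inter]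
        tauto
      have h6 : ((insert i0 D)ᶜ ∩ B).card + ((insert i0 D)ᶜ \ B).card = (insert i0 D)ᶜ.card :=
        Finset.card_inter_add_card_sdiff _ _
      have h7 : n + (insert i0 D)ᶜ.card = Fintype.card ι := by
        rw [← hcard]; exact Finset.card_add_card_compl _
      rw [h3, h4] at h2
      rw [h5] at h1
      obtain ⟨a, ha⟩ := hn
      obtain ⟨b, hb⟩ := hm
      refine ⟨(B ∩ insert i0 D).card + (b - a), ?_⟩
      omega
    have hEq : (-1 : ℤ) ^ B.card = (-1 : ℤ) ^ B'.card := by
      have h8 : (-1 : ℤ) ^ B.card * (-1 : ℤ) ^ B'.card = 1 := by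
        rw [← pow_add]; exact hpar.neg_one_pow
      rcases neg_one_pow_eq_or ℤ B.card with h | h <;> rcases neg_one_pow_eq_or ℤ B'.card with h' | h' <;>
        rw [h, h'] at h8 ⊢ <;> norm_num at h8
    have h9 := hc B
    have h10 := hc B'
    rw [hm.neg_one_pow] at h9 h10
    rw [← hEq] at h10 ⊢
    rcases neg_one_pow_eq_or ℤ B.card with h | h
    · rw [h] at h9 h10 ⊢; linarith
    · rw [h] at h9 h10 ⊢; linarith
  · have h9 := hc B
    have h10 := hc B'
    rw [hm.neg_one_pow] at h9 h10
    have k : ∀ X : Finset ι, (-1 : ℤ) ^ X.card * (-1 : ℤ) ^ Xᶜ.card = -1 →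
        (-1 : ℤ) ^ X.card + (-1 : ℤ) ^ Xᶜ.card = 0 := by
      intro X hX
      rcases neg_one_pow_eq_or ℤ X.card with h | h
      · rw [h] at hX ⊢; linarith
      · rw [h] at hX ⊢; linarith
    rw [k B h9, k B' h10]

/-- switching the membership of `i0` -/
def flip (i0 : ι) (A : Finset ι) : Finset ι := if i0 ∈ A then A.erase i0 else insert i0 A

lemma mem_flip {i0 : ι} {A : Finset ι} {i : ι} (hi : i ≠ i0) : i ∈ flip i0 A ↔ i ∈ A := by
  unfold flip
  split_ifs with h
  · rw [Finset.mem_erase]; tauto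
  · rw [Finset.mem_insert]; tauto

lemma self_mem_flip {i0 : ι} {A : Finset ι} : i0 ∈ flip i0 A ↔ i0 ∉ A := by
  unfold flip
  split_ifs with h
  · simp [h]
  · simp [h]

lemma flip_flip (i0 : ι) (A : Finset ι) : flip i0 (flip i0 A) = A := by
  ext i
  by_cases hi : i = i0
  · subst hi
    rw [self_mem_flip, self_mem_flip, not_not]
  · rw [mem_flip hi, mem_flip hi]

lemma card_flip (i0 : ι) (A : Finset ι) : (-1 : ℤ) ^ (flip i0 A).card = - (-1 : ℤ) ^ A.card := by
  unfold flip
  split_ifs with h
  · rw [Finset.card_erase_of_mem h]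
    have := Finset.card_pos.2 ⟨i0, h⟩
    obtain ⟨k, hk⟩ : ∃ k, A.card = k + 1 := ⟨A.card - 1, by omega⟩
    rw [hk]
    simp [pow_succ]
  · rw [Finset.card_insert_of_notMem h, pow_succ]
    ring

lemma rad_flip {V : ι → E} {i0 : ι} {x : E} {A : Finset ι}
    (h : Rad (Function.update V i0 (-x)) A) : Rad (Function.update V i0 x) (flip i0 A) := by
  obtain ⟨l, hl0, hl, h1, h2⟩ := h
  refine ⟨Function.update l i0 (-l i0), ?_, ?_, ?_, ?_⟩
  · intro h0
    apply hl0
    funext i
    have := congrFun h0 i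
    by_cases hi : i = i0
    · subst hi
      rw [Function.update_self] at this
      simpa using this
    · rw [Function.update_of_ne hi] at this
      exact this
  · rw [sum_update, Function.update_self]
    rw [sum_update] at hl
    rw [← hl]
    congr 1
    · simp
    · apply Finset.sum_congr rfl
      intro i hi
      rw [Function.update_of_ne (Finset.ne_of_mem_erase hi)]
  · intro i hi
    by_cases hii : i = i0
    · subst hii
      rw [self_mem_flip] at hi
      rw [Function.update_self]
      have := h2 i hi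
      linarith
    · rw [mem_flip hii] at hi
      rw [Function.update_of_ne hii]
      exact h1 i hi
  · intro i hi
    by_cases hii : i = i0
    · subst hii
      rw [self_mem_flip, not_not] at hi
      rw [Function.update_self]
      have := h1 i hi
      linarith
    · rw [mem_flip hii] at hi
      rw [Function.update_of_ne hii]
      exact h2 i hi

lemma sgnSum_flip (V : ι → E) (i0 : ι) (x : E) :
    sgnSum (Function.update V i0 (-x)) = - sgnSum (Function.update V i0 x) := by
  classical
  unfold sgnSum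
  rw [← Finset.sum_neg_distrib]
  refine Finset.sum_nbij' (flip i0) (flip i0) ?_ ?_ ?_ ?_ ?_
  · intro A hA
    rw [Finset.mem_filter] at hA ⊢
    exact ⟨Finset.mem_univ _, rad_flip hA.2⟩
  · intro A hA
    rw [Finset.mem_filter] at hA ⊢
    refine ⟨Finset.mem_univ _, rad_flip ?_⟩
    rw [neg_neg]
    exact hA.2
  · intro A _
    exact flip_flip i0 A
  · intro A _
    exact flip_flip i0 A
  · intro A _
    rw [card_flip, neg_neg]

variable [FiniteDimensional ℝ E]

lemma wall_scale {V : ι → E} {i0 : ι} {D : Finset ι}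
    (hV : ∀ C : Finset ι, C.card = Module.finrank ℝ E → i0 ∉ C → Ind V C)
    (hcard : Module.finrank ℝ E < Fintype.card ι)
    (hD : D.card + 1 = Module.finrank ℝ E) (hiD : i0 ∉ D) {w g : E →ₗ[ℝ] ℝ}
    (hw0 : w ≠ 0) (hw : ∀ j ∈ D, w (V j) = 0) (hg0 : g ≠ 0) (hg : ∀ j ∈ D, g (V j) = 0) :
    ∃ c : ℝ, c ≠ 0 ∧ g = c • w := by
  classical
  obtain ⟨e, he⟩ : ∃ e, e ∉ insert i0 D := by
    by_contra hcon
    push Not at hcon
    have h1 : (insert i0 D).card = Fintype.card ι := by
      rw [Finset.card_eq_iff_eq_univ]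
      exact Finset.eq_univ_of_forall hcon
    rw [Finset.card_insert_of_notMem hiD] at h1
    omega
  rw [Finset.mem_insert] at he
  push Not at he
  have hc : (insert e D).card = Module.finrank ℝ E := by
    rw [Finset.card_insert_of_notMem he.2, hD]
  have hiC : i0 ∉ insert e D := by
    rw [Finset.mem_insert]; push Not; exact ⟨he.1.symm, hiD⟩
  have hI := hV _ hc hiC
  have hwe : w (V e) ≠ 0 := by
    intro h0
    apply hw0
    apply hI.eq_zero_of_vanish hc
    intro j hj
    rcases Finset.mem_insert.1 hj with rfl | hj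
    · exact h0
    · exact hw j hj
  have hge : g (V e) ≠ 0 := by
    intro h0
    apply hg0
    apply hI.eq_zero_of_vanish hc
    intro j hj
    rcases Finset.mem_insert.1 hj with rfl | hj
    · exact h0
    · exact hg j hj
  refine ⟨g (V e) / w (V e), div_ne_zero hge hwe, ?_⟩
  rw [← sub_eq_zero]
  apply hI.eq_zero_of_vanish hc
  intro j hj
  rw [LinearMap.sub_apply, LinearMap.smul_apply, smul_eq_mul]
  rcases Finset.mem_insert.1 hj with rfl | hj
  · field_simp; ring
  · rw [hg j hj, hw j hj]; ring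

open Classical in
/-- the set `B` of the half crossing lemma -/
noncomputable def Bset (V : ι → E) (i0 : ι) (D : Finset ι) (f : E →ₗ[ℝ] ℝ) (x : E) (β : ι → ℝ) :
    Finset ι :=
  univ.filter (fun i => i = i0 ∨ (i ∈ D ∧ β i < 0) ∨ (i ∉ D ∧ i ≠ i0 ∧ 0 < f x * f (V i)))

omit [FiniteDimensional ℝ E] in
lemma Bset_i0 {V : ι → E} {i0 : ι} {D : Finset ι} {f : E →ₗ[ℝ] ℝ} {x : E} {β : ι → ℝ} :
    i0 ∈ Bset V i0 D f x β := by simp [Bset]

omit [FiniteDimensional ℝ E] in
lemma Bset_D {V : ι → E} {i0 : ι} {D : Finset ι} {f : E →ₗ[ℝ] ℝ} {x : E} {β : ι → ℝ}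
    (hiD : i0 ∉ D) : ∀ j ∈ D, (j ∈ Bset V i0 D f x β ↔ β j < 0) := by
  intro j hj
  have : j ≠ i0 := fun h => hiD (h ▸ hj)
  simp [Bset, hj, this]

omit [FiniteDimensional ℝ E] in
lemma Bset_E {V : ι → E} {i0 : ι} {D : Finset ι} {f : E →ₗ[ℝ] ℝ} {x : E} {β : ι → ℝ} :
    ∀ e, e ∉ D → e ≠ i0 → (e ∈ Bset V i0 D f x β ↔ 0 < f x * f (V e)) := by
  intro e he hei
  simp [Bset, he, hei]

/-- the signed sum does not change along a generic segment -/
theorem path_sum {V : ι → E} {i0 : ι} (hn : Even (Module.finrank ℝ E))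
    (hV : ∀ C : Finset ι, C.card = Module.finrank ℝ E → i0 ∉ C → Ind V C)
    (hcard : Module.finrank ℝ E < Fintype.card ι)
    (W : Finset (Finset ι)) (hW : ∀ D, D ∈ W ↔ D.card + 1 = Module.finrank ℝ E ∧ i0 ∉ D)
    (w : Finset ι → (E →ₗ[ℝ] ℝ)) (hw0 : ∀ D ∈ W, w D ≠ 0) (hw : ∀ D ∈ W, ∀ j ∈ D, w D (V j) = 0)
    {x q : E} (hx : ∀ D ∈ W, w D x ≠ 0) (hq : ∀ D ∈ W, w D q ≠ 0)
    (hpair : ∀ D1 ∈ W, ∀ D2 ∈ W, D1 ≠ D2 → w D1 x * w D2 q - w D2 x * w D1 q ≠ 0) :
    sgnSum (Function.update V i0 x) = sgnSum (Function.update V i0 q) := by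
  classical
  have hz : ∀ (D : Finset ι) (r : ℝ), w D (x + r • (q - x)) = w D x + r * (w D q - w D x) := by
    intro D r
    rw [map_add, map_smul, map_sub, smul_eq_mul]
  have hscale : ∀ (D' : Finset ι) (g : E →ₗ[ℝ] ℝ), D'.card + 1 = Module.finrank ℝ E → i0 ∉ D' →
      g ≠ 0 → (∀ j ∈ D', g (V j) = 0) → ∀ u v : E, 0 < w D' u * w D' v → 0 < g u * g v := by
    intro D' g h1 h2 h3 h4 u v huv
    have hD' : D' ∈ W := (hW D').2 ⟨h1, h2⟩
    obtain ⟨c, hc0, rfl⟩ := wall_scale hV hcard h1 h2 (hw0 D' hD') (hw D' hD') h3 h4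
    rw [LinearMap.smul_apply, LinearMap.smul_apply, smul_eq_mul, smul_eq_mul]
    have : c * w D' u * (c * w D' v) = c^2 * (w D' u * w D' v) := by ring
    rw [this]
    positivity
  have main := path_induct W (fun D => w D x) (fun D => w D q - w D x)
    (fun r => sgnSum (Function.update V i0 (x + r • (q - x)))) ?_ ?_ ?_ _ 0 1 le_rfl one_pos le_rfl
    ?_ ?_ le_rfl
  · simpa using main
  · intro D1 hD1 D2 hD2 hne r hr0 hr1 ⟨h1, h2⟩
    have h3 : r * (w D1 x * w D2 q - w D2 x * w D1 q) = 0 := by
      have : r * (w D1 x * w D2 q - w D2 x * w D1 q) =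
          w D1 x * (w D2 x + r * (w D2 q - w D2 x)) - w D2 x * (w D1 x + r * (w D1 q - w D1 x)) := by
        ring
      rw [this, h1, h2]; ring
    rcases mul_eq_zero.1 h3 with h | h
    · rw [h] at h1
      simp only [zero_mul, add_zero] at h1
      exact hx D1 hD1 h1
    · exact hpair D1 hD1 D2 hD2 hne h
  · intro s t hs hst ht hall
    have hall' : ∀ D ∈ W, 0 < w D (x + s • (q - x)) * w D (x + t • (q - x)) := by
      intro D hD
      rw [hz, hz]; exact hall D hD
    have : univ.filter (fun A : Finset ι => Rad (Function.update V i0 (x + s • (q - x))) A) =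
        univ.filter (fun A : Finset ι => Rad (Function.update V i0 (x + t • (q - x))) A) := by
      ext A
      simp only [Finset.mem_filter, Finset.mem_univ, true_and]
      constructor
      · intro h
        refine no_cross V i0 _ _ hV hcard ?_ A h
        intro D' g h1 h2 h3 h4
        exact hscale D' g h1 h2 h3 h4 _ _ (hall' D' ((hW D').2 ⟨h1, h2⟩))
      · intro h
        refine no_cross V i0 _ _ hV hcard ?_ A h
        intro D' g h1 h2 h3 h4
        rw [mul_comm]
        exact hscale D' g h1 h2 h3 h4 _ _ (hall' D' ((hW D').2 ⟨h1, h2⟩))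
    show sgnSum _ = sgnSum _
    unfold sgnSum
    rw [this]
  · intro s t hs hst ht D hD hneg hrest
    obtain ⟨r, hsr, hrt, hr⟩ := aff_root hst hneg
    obtain ⟨hDc, hiD⟩ := (hW D).1 hD
    set xs := x + s • (q - x) with hxs
    set xt := x + t • (q - x) with hxt
    set z := x + r • (q - x) with hzd
    have hfz : w D z = 0 := by rw [hzd, hz]; exact hr
    have hneg' : w D xs * w D xt < 0 := by rw [hxs, hxt, hz, hz]; exact hneg
    have hfs : w D xs ≠ 0 := by intro h; rw [h, zero_mul] at hneg'; exact lt_irrefl _ hneg'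
    have hft : w D xt ≠ 0 := by intro h; rw [h, mul_zero] at hneg'; exact lt_irrefl _ hneg'
    -- other walls
    have hsame : ∀ D' ∈ W, D' ≠ D → 0 < w D' xs * w D' z ∧ 0 < w D' xt * w D' z := by
      intro D' hD' hne
      have h1 := hrest D' hD' hne
      have hconv : w D' z * (t - s) = (t - r) * w D' xs + (r - s) * w D' xt := by
        rw [hxs, hxt, hzd, hz, hz, hz]; ring
      have h1' : 0 < w D' xs * w D' xt := by rw [hxs, hxt, hz, hz]; exact h1
      have hxs0 : w D' xs ≠ 0 := fun h => by rw [h, zero_mul] at h1'; exact lt_irrefl _ h1'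
      have hxt0 : w D' xt ≠ 0 := fun h => by rw [h, mul_zero] at h1'; exact lt_irrefl _ h1'
      constructor
      · have h2 : (w D' xs * w D' z) * (t - s) =
            (t - r) * (w D' xs)^2 + (r - s) * (w D' xs * w D' xt) := by
          rw [mul_assoc, hconv]; ring
        by_contra hcon
        push Not at hcon
        have h3 : (w D' xs * w D' z) * (t - s) ≤ 0 :=
          mul_nonpos_of_nonpos_of_nonneg hcon (by linarith)
        have h4 : 0 < (t - r) * (w D' xs)^2 := mul_pos (by linarith) (by positivity)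
        have h5 : 0 < (r - s) * (w D' xs * w D' xt) := mul_pos (by linarith) h1'
        linarith
      · have h2 : (w D' xt * w D' z) * (t - s) =
            (t - r) * (w D' xs * w D' xt) + (r - s) * (w D' xt)^2 := by
          rw [mul_assoc, hconv]; ring
        by_contra hcon
        push Not at hcon
        have h3 : (w D' xt * w D' z) * (t - s) ≤ 0 :=
          mul_nonpos_of_nonpos_of_nonneg hcon (by linarith)
        have h4 : 0 < (r - s) * (w D' xt)^2 := mul_pos (by linarith) (by positivity)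
        have h5 : 0 < (t - r) * (w D' xs * w D' xt) := mul_pos (by linarith) h1'
        linarith
    have hfE : ∀ e, e ∉ D → e ≠ i0 → w D (V e) ≠ 0 := by
      intro e he hei h0
      apply hw0 D hD
      have hc : (insert e D).card = Module.finrank ℝ E := by
        rw [Finset.card_insert_of_notMem he, hDc]
      apply (hV (insert e D) hc ?_).eq_zero_of_vanish hc
      · intro j hj
        rcases Finset.mem_insert.1 hj with rfl | hj
        · exact h0
        · exact hw D hD j hj
      · rw [Finset.mem_insert]; push Not; exact ⟨hei.symm, hiD⟩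
    obtain ⟨e, he⟩ : ∃ e, e ∉ insert i0 D := by
      by_contra hcon
      push Not at hcon
      have h1 : (insert i0 D).card = Fintype.card ι := by
        rw [Finset.card_eq_iff_eq_univ]
        exact Finset.eq_univ_of_forall hcon
      rw [Finset.card_insert_of_notMem hiD] at h1
      omega
    rw [Finset.mem_insert] at he
    push Not at he
    -- coordinates of `z`
    obtain ⟨β, hβ⟩ : ∃ β : ι → ℝ, z = ∑ j ∈ D, β j • V j := by
      have hc : (insert e D).card = Module.finrank ℝ E := by
        rw [Finset.card_insert_of_notMem he.2, hDc]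
      have hiC : i0 ∉ insert e D := by
        rw [Finset.mem_insert]; push Not; exact ⟨he.1.symm, hiD⟩
      obtain ⟨g, hg1, hg2, hg3, hg4⟩ := (hV _ hc hiC).coords hc
      have hge : g e z = 0 := by
        have h1 : w D z = g e z * w D (V e) := by
          conv_lhs => rw [← hg4 z]
          rw [map_sum, Finset.sum_eq_single e]
          · simp
          · intro i _ hie
            by_cases hi : i ∈ D
            · rw [map_smul, hw D hD i hi]; simp
            · rw [hg3 i (by rw [Finset.mem_insert]; push Not; exact ⟨hie, hi⟩)]; simp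
          · intro h; exact absurd (Finset.mem_univ _) h
        rw [hfz] at h1
        rcases mul_eq_zero.1 h1.symm with h | h
        · exact h
        · exact absurd h (hfE e he.2 he.1)
      refine ⟨fun j => g j z, ?_⟩
      conv_lhs => rw [← hg4 z]
      symm
      apply Finset.sum_subset (Finset.subset_univ _)
      intro i _ hi
      show g i z • V i = 0
      by_cases hie : i = e
      · rw [hie, hge, zero_smul]
      · rw [hg3 i (by rw [Finset.mem_insert]; push Not; exact ⟨hie, hi⟩)]; simp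
    have H1 := half_cross V i0 D (w D) xs z hV hDc hiD (hw D hD) hfE hfs
      (fun D' g h1 h2 h3 h4 h5 => hscale D' g h1 h2 h4 h5 _ _
        (hsame D' ((hW D').2 ⟨h1, h2⟩) h3).1) ⟨e, he.2, he.1⟩ β hβ (Bset V i0 D (w D) xs β)
      Bset_i0 (Bset_D hiD) Bset_E
    have H2 := half_cross V i0 D (w D) xt z hV hDc hiD (hw D hD) hfE hft
      (fun D' g h1 h2 h3 h4 h5 => hscale D' g h1 h2 h4 h5 _ _
        (hsame D' ((hW D').2 ⟨h1, h2⟩) h3).2) ⟨e, he.2, he.1⟩ β hβ (Bset V i0 D (w D) xt β)
      Bset_i0 (Bset_D hiD) Bset_E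
    show sgnSum _ = sgnSum _
    rw [sgnSum_half i0 Bset_i0 H1.1 H1.2, sgnSum_half i0 Bset_i0 H2.1 H2.2]
    congr 1
    refine sign_pair hn hDc hiD ?_ ?_
    · intro i hi
      rcases Finset.mem_insert.1 hi with rfl | hi
      · exact ⟨fun _ => Bset_i0, fun _ => Bset_i0⟩
      · rw [Bset_D hiD i hi, Bset_D hiD i hi]
    · intro i hi
      rw [Finset.mem_insert] at hi
      push Not at hi
      rw [Bset_E i hi.2 hi.1, Bset_E i hi.2 hi.1]
      have h1 := hfE i hi.2 hi.1
      have h2 : (w D xs * w D (V i)) * (w D xt * w D (V i)) < 0 := by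
        have : (w D xs * w D (V i)) * (w D xt * w D (V i)) =
            (w D xs * w D xt) * (w D (V i))^2 := by ring
        rw [this]
        exact mul_neg_of_neg_of_pos hneg' (by positivity)
      constructor
      · intro h3 h4
        have := mul_pos h3 h4
        linarith
      · intro h3
        push Not at h3
        by_contra h4
        push Not at h4
        have := mul_nonneg_of_nonpos_of_nonpos h4 h3
        linarith
  · intro D hD
    simp only [zero_mul, add_zero]
    exact hx D hD
  · intro D hD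
    have : w D x + 1 * (w D q - w D x) = w D q := by ring
    rw [this]
    exact hq D hD

/-- In even dimension the signed number of Radon type sets of vectors in general position is
zero. -/
theorem sgnSum_zero (V : ι → E) (hn : Even (Module.finrank ℝ E)) (hn0 : 0 < Module.finrank ℝ E)
    (hV : ∀ C : Finset ι, C.card = Module.finrank ℝ E → Ind V C)
    (hcard : Module.finrank ℝ E < Fintype.card ι) : sgnSum V = 0 := by
  classical
  have : Nonempty ι := Fintype.card_pos_iff.1 (by omega)
  obtain ⟨i0⟩ := this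
  have hV' : ∀ C : Finset ι, C.card = Module.finrank ℝ E → i0 ∉ C → Ind V C := fun C h _ => hV C h
  have hex : ∀ D : Finset ι, ∃ g : E →ₗ[ℝ] ℝ, D.card + 1 = Module.finrank ℝ E →
      (g ≠ 0 ∧ ∀ j ∈ D, g (V j) = 0) := by
    intro D
    by_cases h : D.card + 1 = Module.finrank ℝ E
    · obtain ⟨g, hg⟩ := exists_vanish V (D := D) (by omega)
      exact ⟨g, fun _ => hg⟩
    · exact ⟨0, fun h' => absurd h' h⟩
  choose w hw using hex
  set W : Finset (Finset ι) := univ.filter (fun D => D.card + 1 = Module.finrank ℝ E ∧ i0 ∉ D) with hWd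
  have hW : ∀ D, D ∈ W ↔ D.card + 1 = Module.finrank ℝ E ∧ i0 ∉ D := by
    intro D; simp [hWd]
  have hw0 : ∀ D ∈ W, w D ≠ 0 := fun D hD => (hw D ((hW D).1 hD).1).1
  have hw1 : ∀ D ∈ W, ∀ j ∈ D, w D (V j) = 0 := fun D hD => (hw D ((hW D).1 hD).1).2
  have hwe : ∀ D ∈ W, ∀ e ∉ D, w D (V e) ≠ 0 := by
    intro D hD e he h0
    apply hw0 D hD
    have hc : (insert e D).card = Module.finrank ℝ E := by
      rw [Finset.card_insert_of_notMem he, ((hW D).1 hD).1]
    apply (hV (insert e D) hc).eq_zero_of_vanish hc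
    intro j hj
    rcases Finset.mem_insert.1 hj with rfl | hj
    · exact h0
    · exact hw1 D hD j hj
  set x := V i0 with hxd
  have hx : ∀ D ∈ W, w D x ≠ 0 := fun D hD => hwe D hD i0 ((hW D).1 hD).2
  obtain ⟨q, hq⟩ := Module.Dual.exists_forall_ne_zero_of_forall_exists (K := ℝ) (M := E)
    (ι := ({p : Finset ι × Finset ι // p.1 ∈ W ∧ p.2 ∈ W ∧ p.1 ≠ p.2} ⊕ {D : Finset ι // D ∈ W}))
    (Sum.elim (fun p => w p.1.1 x • w p.1.2 - w p.1.2 x • w p.1.1) (fun D => w D.1)) (by
      rintro (⟨⟨D1, D2⟩, hD1, hD2, hne⟩ | ⟨D, hD⟩)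
      · simp only at hD1 hD2 hne
        obtain ⟨j, hj1, hj2⟩ : ∃ j ∈ D1, j ∉ D2 := by
          by_contra hcon
          push Not at hcon
          apply hne
          apply Finset.eq_of_subset_of_card_le hcon
          have h1 := ((hW D1).1 hD1).1
          have h2 := ((hW D2).1 hD2).1
          omega
        refine ⟨V j, ?_⟩
        show (w D1 x • w D2 - w D2 x • w D1) (V j) ≠ 0
        rw [LinearMap.sub_apply, LinearMap.smul_apply, LinearMap.smul_apply, hw1 D1 hD1 j hj1]
        simp only [smul_eq_mul, mul_zero, sub_zero]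
        exact mul_ne_zero (hx D1 hD1) (hwe D2 hD2 j hj2)
      · exact ⟨x, hx D hD⟩)
  have hqD : ∀ D ∈ W, w D q ≠ 0 := fun D hD => hq (Sum.inr ⟨D, hD⟩)
  have hqp : ∀ D1 ∈ W, ∀ D2 ∈ W, D1 ≠ D2 → w D1 x * w D2 q - w D2 x * w D1 q ≠ 0 := by
    intro D1 hD1 D2 hD2 hne
    have := hq (Sum.inl ⟨(D1, D2), hD1, hD2, hne⟩)
    simpa using this
  have P1 := path_sum hn hV' hcard W hW w hw0 hw1 hx hqD hqp
  have P2 := path_sum (x := -x) hn hV' hcard W hW w hw0 hw1 (fun D hD => by
    rw [map_neg]; exact neg_ne_zero.2 (hx D hD)) hqD (fun D1 hD1 D2 hD2 hne => by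
    rw [map_neg, map_neg]
    have := hqp D1 hD1 D2 hD2 hne
    intro h
    apply this
    linarith)
  rw [sgnSum_flip, ← P1] at P2
  have e : Function.update V i0 x = V := Function.update_eq_self i0 V
  rw [e] at P2
  linarith

end

end Pool.Agent.H77.RL
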