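import Pool.Agent.H77.RL.Half

namespace Pool.Agent.H77.RL

open Finset

section

variable {ι : Type*} [Fintype ι] [DecidableEq ι] {E : Type*} [AddCommGroup E] [Module ℝ E]
  [FiniteDimensional ℝ E]

/-- a functional vanishing exactly on the vectors with index in `Z` -/
lemma gen_fun {V : ι → E} (hV : ∀ C : Finset ι, C.card = Module.finrank ℝ E → Ind V C)
    (hcard : Module.finrank ℝ E ≤ Fintype.card ι) {Z : Finset ι}
    (hZ : Z.card < Module.finrank ℝ E) :
    ∃ g : E →ₗ[ℝ] ℝ, (∀ j ∈ Z, g (V j) = 0) ∧ ∀ j ∉ Z, g (V j) ≠ 0 := by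
  classical
  let p : Submodule ℝ (Module.Dual ℝ E) :=
    { carrier := {g | ∀ j ∈ Z, g (V j) = 0}
      add_mem' := by
        intro a b ha hb j hj
        have h1 := ha j hj
        have h2 := hb j hj
        rw [LinearMap.add_apply, h1, h2, add_zero]
      zero_mem' := by
        intro j _
        simp
      smul_mem' := by
        intro c a ha j hj
        have h1 := ha j hj
        rw [LinearMap.smul_apply, h1, smul_zero] }
  obtain ⟨g, hgp, hg⟩ := Module.Dual.exists_forall_mem_ne_zero_of_forall_exists
    (K := ℝ) (M := Module.Dual ℝ E) (ι := {j : ι // j ∉ Z}) p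
    (fun j => Module.Dual.eval ℝ E (V j)) (by
      rintro ⟨j, hj⟩
      obtain ⟨C, hC1, -, hCc⟩ := Finset.exists_subsuperset_card_eq (s := insert j Z) (t := univ)
        (n := Module.finrank ℝ E) (Finset.subset_univ _)
        (by rw [Finset.card_insert_of_notMem hj]; omega) (by rw [Finset.card_univ]; exact hcard)
      obtain ⟨g, hg1, hg2, -, -⟩ := (hV C hCc).coords hCc
      have hjC : j ∈ C := hC1 (Finset.mem_insert_self _ _)
      refine ⟨g j, ?_, ?_⟩
      · intro i hi
        exact hg2 j hjC i (hC1 (Finset.mem_insert_of_mem hi)) (fun h => hj (h ▸ hi))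
      · rw [Module.Dual.eval_apply, hg1 j hjC]
        exact one_ne_zero)
  exact ⟨g, hgp, fun j hj => hg ⟨j, hj⟩⟩

open Classical in
/-- The number of partitions of Radon type of vectors in general position. -/
theorem count_rad (V : ι → E) (i0 : ι) (hV : ∀ C : Finset ι, C.card = Module.finrank ℝ E → Ind V C)
    (hcard : Module.finrank ℝ E < Fintype.card ι) :
    (univ.filter (fun A : Finset ι => i0 ∉ A ∧ Rad V (insert i0 A))).card =
      ∑ k ∈ Icc (Module.finrank ℝ E) (Fintype.card ι - 1), (Fintype.card ι - 1).choose k := by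
  set n := Module.finrank ℝ E with hn
  set m := Fintype.card ι with hm
  set U : Finset ι := univ.erase i0 with hU
  have hUc : U.card = m - 1 := by rw [hU, Finset.card_erase_of_mem (Finset.mem_univ _), Finset.card_univ]
  set 𝒜 : Finset (Finset ι) := univ.filter (fun A : Finset ι => i0 ∉ A ∧ ¬ Rad V (insert i0 A)) with h𝒜
  set ℬ : Finset (Finset ι) := univ.filter (fun A : Finset ι => i0 ∉ A ∧ Rad V (insert i0 A)) with hℬ
  set F1 : Finset (Finset ι) := U.powerset.filter (fun X => X.card < n) with hF1
  set F2 : Finset (Finset ι) := U.powerset.filter (fun X => ¬ X.card < n) with hF2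
  set F3 : Finset (Finset ι) := U.powerset.filter (fun X => ¬ (U \ X).card < n) with hF3
  -- bound for the separable ones
  have hA : 𝒜.card ≤ F1.card := by
    refine le_trans (Finset.card_le_card_shatterer 𝒜) (Finset.card_le_card ?_)
    intro X hX
    rw [Finset.mem_shatterer] at hX
    have hi0X : i0 ∉ X := by
      obtain ⟨u, hu, hXu⟩ := hX (subset_refl X)
      rw [h𝒜, Finset.mem_filter] at hu
      intro h
      rw [← hXu, Finset.mem_inter] at h
      exact hu.2.1 h.2
    rw [hF1, Finset.mem_filter, Finset.mem_powerset]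
    refine ⟨fun i hi => Finset.mem_erase.2 ⟨fun h => hi0X (h ▸ hi), Finset.mem_univ _⟩, ?_⟩
    by_contra hcon
    push Not at hcon
    obtain ⟨C, hCX, hCc⟩ := Finset.exists_subset_card_eq hcon
    have hiC : i0 ∉ C := fun h => hi0X (hCX h)
    obtain ⟨g, -, -, hg3, hg4⟩ := (hV C hCc).coords hCc
    have hcs := circ_sum hiC hg3 hg4 (V i0) 1
    rw [Function.update_eq_self] at hcs
    set l : ι → ℝ := fun i => if i = i0 then 1 else - (1 * g i (V i0)) with hl
    have hlz : ∀ i, i ≠ i0 → i ∉ X → l i = 0 := by
      intro i hi hiX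
      simp only [hl, hi, if_false]
      rw [hg3 i (fun h => hiX (hCX h))]
      simp
    obtain ⟨u, hu, hXu⟩ := hX (Finset.filter_subset (fun j => 0 ≤ l j) X)
    rw [h𝒜, Finset.mem_filter] at hu
    apply hu.2.2
    refine ⟨l, ?_, hcs, ?_, ?_⟩
    · intro h0
      have := congrFun h0 i0
      simp [hl] at this
    · intro i hi
      rcases Finset.mem_insert.1 hi with rfl | hi
      · simp [hl]
      · by_cases hiX : i ∈ X
        · have : i ∈ X.filter (fun j => 0 ≤ l j) := by
            rw [← hXu]; exact Finset.mem_inter.2 ⟨hiX, hi⟩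
          exact (Finset.mem_filter.1 this).2
        · exact (hlz i (fun h => hu.2.1 (h ▸ hi)) hiX).ge
    · intro i hi
      rw [Finset.mem_insert] at hi
      push Not at hi
      by_cases hiX : i ∈ X
      · have : i ∉ X.filter (fun j => 0 ≤ l j) := by
          rw [← hXu]; intro h; exact hi.2 (Finset.mem_inter.1 h).2
        rw [Finset.mem_filter] at this
        push Not at this
        exact (this hiX).le
      · exact (hlz i hi.1 hiX).le
  -- bound for the Radon ones
  have hB : ℬ.card ≤ F3.card := by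
    refine le_trans (Finset.card_le_card_shatterer ℬ) (Finset.card_le_card ?_)
    intro X hX
    rw [Finset.mem_shatterer] at hX
    have hi0X : i0 ∉ X := by
      obtain ⟨u, hu, hXu⟩ := hX (subset_refl X)
      rw [hℬ, Finset.mem_filter] at hu
      intro h
      rw [← hXu, Finset.mem_inter] at h
      exact hu.2.1 h.2
    rw [hF3, Finset.mem_filter, Finset.mem_powerset]
    refine ⟨fun i hi => Finset.mem_erase.2 ⟨fun h => hi0X (h ▸ hi), Finset.mem_univ _⟩, ?_⟩
    intro hlt
    obtain ⟨g, hg0, hg1, hgp⟩ : ∃ g : E →ₗ[ℝ] ℝ, (∀ j ∈ U \ X, g (V j) = 0) ∧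
        (∀ j ∉ U \ X, g (V j) ≠ 0) ∧ 0 < g (V i0) := by
      obtain ⟨g, hg0, hg1⟩ := gen_fun hV hcard.le hlt
      have hne : g (V i0) ≠ 0 := hg1 i0 (by
        intro h
        exact Finset.notMem_erase i0 univ (Finset.mem_sdiff.1 h).1)
      rcases lt_or_gt_of_ne hne with h | h
      · exact ⟨-g, fun j hj => by rw [LinearMap.neg_apply, hg0 j hj, neg_zero],
          fun j hj => by rw [LinearMap.neg_apply]; exact neg_ne_zero.2 (hg1 j hj),
          by rw [LinearMap.neg_apply]; linarith⟩
      · exact ⟨g, hg0, hg1, h⟩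
    obtain ⟨u, hu, hXu⟩ := hX (Finset.filter_subset (fun j => 0 < g (V j)) X)
    rw [hℬ, Finset.mem_filter] at hu
    obtain ⟨l, hl0, hl, h1, h2⟩ := hu.2.2
    apply hl0
    have hsum := congrArg g hl
    simp only [map_sum, map_smul, map_zero] at hsum
    have hmemU : ∀ i, i ≠ i0 → i ∈ U := fun i hi => Finset.mem_erase.2 ⟨hi, Finset.mem_univ _⟩
    have hterm : ∀ i ∈ univ, 0 ≤ l i • g (V i) := by
      intro i _
      rw [smul_eq_mul]
      by_cases hii : i = i0
      · subst hii
        exact mul_nonneg (h1 i (Finset.mem_insert_self _ _)) hgp.le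
      · by_cases hiX : i ∈ X
        · by_cases hiu : i ∈ u
          · have : i ∈ X.filter (fun j => 0 < g (V j)) := by
              rw [← hXu]; exact Finset.mem_inter.2 ⟨hiX, hiu⟩
            exact mul_nonneg (h1 i (Finset.mem_insert_of_mem hiu)) (Finset.mem_filter.1 this).2.le
          · have : i ∉ X.filter (fun j => 0 < g (V j)) := by
              rw [← hXu]; intro h; exact hiu (Finset.mem_inter.1 h).2
            rw [Finset.mem_filter] at this
            push Not at this
            apply mul_nonneg_of_nonpos_of_nonpos (h2 i ?_) (this hiX)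
            rw [Finset.mem_insert]; push Not; exact ⟨hii, hiu⟩
        · rw [hg0 i (Finset.mem_sdiff.2 ⟨hmemU i hii, hiX⟩), mul_zero]
    have hz := (Finset.sum_eq_zero_iff_of_nonneg hterm).1 hsum
    obtain ⟨C, hC1, -, hCc⟩ := Finset.exists_subsuperset_card_eq (s := U \ X) (t := univ)
      (n := n) (Finset.subset_univ _) hlt.le (by rw [Finset.card_univ]; exact hcard.le)
    refine ((hV C hCc).mono hC1) l ?_ hl
    intro i hi
    have h4 := hz i (Finset.mem_univ _)
    rw [smul_eq_mul] at h4
    rcases mul_eq_zero.1 h4 with h | h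
    · exact h
    · exact absurd h (hg1 i hi)
  have h13 : F3.card = F2.card := by
    refine Finset.card_nbij' (fun X => U \ X) (fun X => U \ X) ?_ ?_ ?_ ?_
    · intro X hX
      have hX' := Finset.mem_coe.1 hX
      rw [hF3, Finset.mem_filter] at hX'
      rw [Finset.mem_coe, hF2, Finset.mem_filter, Finset.mem_powerset]
      exact ⟨Finset.sdiff_subset, hX'.2⟩
    · intro X hX
      have hX' := Finset.mem_coe.1 hX
      rw [hF2, Finset.mem_filter, Finset.mem_powerset] at hX'
      rw [Finset.mem_coe, hF3, Finset.mem_filter, Finset.mem_powerset]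
      refine ⟨Finset.sdiff_subset, ?_⟩
      rw [Finset.sdiff_sdiff_eq_self hX'.1]
      exact hX'.2
    · intro X hX
      have hX' := Finset.mem_coe.1 hX
      rw [hF3, Finset.mem_filter, Finset.mem_powerset] at hX'
      exact Finset.sdiff_sdiff_eq_self hX'.1
    · intro X hX
      have hX' := Finset.mem_coe.1 hX
      rw [hF2, Finset.mem_filter, Finset.mem_powerset] at hX'
      exact Finset.sdiff_sdiff_eq_self hX'.1
  have h12 : F1.card + F2.card = 2 ^ (m - 1) := by
    rw [hF1, hF2, Finset.card_filter_add_card_filter_not, Finset.card_powerset, hUc]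
  have hAB : 𝒜.card + ℬ.card = 2 ^ (m - 1) := by
    have e1 : 𝒜 = U.powerset.filter (fun A => ¬ Rad V (insert i0 A)) := by
      ext A
      simp only [h𝒜, hU, Finset.mem_filter, Finset.mem_univ, true_and, Finset.mem_powerset]
      refine and_congr_left (fun _ => ⟨fun h i hi => Finset.mem_erase.2 ⟨fun h' => h (h' ▸ hi),
        Finset.mem_univ _⟩, fun h h' => Finset.notMem_erase i0 univ (h h')⟩)
    have e2 : ℬ = U.powerset.filter (fun A => Rad V (insert i0 A)) := by
      ext A
      simp only [hℬ, hU, Finset.mem_filter, Finset.mem_univ, true_and, Finset.mem_powerset]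
      refine and_congr_left (fun _ => ⟨fun h i hi => Finset.mem_erase.2 ⟨fun h' => h (h' ▸ hi),
        Finset.mem_univ _⟩, fun h h' => Finset.notMem_erase i0 univ (h h')⟩)
    rw [e1, e2, add_comm, Finset.card_filter_add_card_filter_not, Finset.card_powerset, hUc]
  have hBF : ℬ.card = F2.card := by omega
  rw [hBF]
  have hmap : ∀ X ∈ F2, X.card ∈ Icc n (m - 1) := by
    intro X hX
    rw [hF2, Finset.mem_filter, Finset.mem_powerset] at hX
    rw [Finset.mem_Icc]
    have := Finset.card_le_card hX.1
    omega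
  rw [Finset.card_eq_sum_card_fiberwise (f := fun X : Finset ι => X.card) (t := Icc n (m - 1))
    (fun X hX => hmap X hX)]
  apply Finset.sum_congr rfl
  intro k hk
  rw [Finset.mem_Icc] at hk
  rw [← hUc, ← Finset.card_powersetCard k U]
  congr 1
  ext X
  rw [Finset.mem_filter, hF2, Finset.mem_filter, Finset.mem_powerset, Finset.mem_powersetCard]
  constructor
  · rintro ⟨⟨h1, h2⟩, h3⟩
    exact ⟨h1, h3⟩
  · rintro ⟨h1, h3⟩
    exact ⟨⟨h1, by omega⟩, h3⟩

end

end Pool.Agent.H77.RL
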