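import Pool.Agent.H54.Radon.Defs

namespace Pool.Agent.H77.RL

open Finset Pool.Agent.H54.Radon

/-- The Radon vectors `(r 1, ..., r (m/2))` of the `m`-point sets `S` in dimension `d` with the
property `Q`. -/
def radonVecs (d m : ℕ) (Q : Finset (Fin d → ℝ) → Prop) : Set (Fin (m / 2) → ℤ) :=
  {v | ∃ S : Finset (Fin d → ℝ), S.card = m ∧ Q S ∧ ∀ i, v i = (radonCount S (i + 1) : ℤ)}

end Pool.Agent.H77.RL
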