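import Pool.Agent.H77.RL.Lin

namespace Pool.Agent.H77.RL

open Finset

section

variable {ι : Type*} [Fintype ι] [DecidableEq ι] {E : Type*} [AddCommGroup E] [Module ℝ E]

lemma Rad.compl {V : ι → E} {A : Finset ι} (h : Rad V A) : Rad V Aᶜ := by
  obtain ⟨l, hl0, hl, h1, h2⟩ := h
  refine ⟨-l, neg_ne_zero.2 hl0, ?_, ?_, ?_⟩
  · simp only [Pi.neg_apply, neg_smul]
    rw [Finset.sum_neg_distrib, hl, neg_zero]
  · intro i hi
    have := h2 i (Finset.mem_compl.1 hi)
    simp only [Pi.neg_apply]; linarith
  · intro i hi
    have := h1 i (by simpa using hi)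
    simp only [Pi.neg_apply]; linarith

lemma rad_compl_iff {V : ι → E} {A : Finset ι} : Rad V Aᶜ ↔ Rad V A :=
  ⟨fun h => by simpa using h.compl, fun h => h.compl⟩

/-- a dependency of minimal support -/
lemma Rad.exists_min {V : ι → E} {A : Finset ι} (h : Rad V A) :
    ∃ l : ι → ℝ, l ≠ 0 ∧ ∑ i, l i • V i = 0 ∧ (∀ i ∈ A, 0 ≤ l i) ∧ (∀ i ∉ A, l i ≤ 0) ∧
      ∀ u : ι → ℝ, u ≠ 0 → ∑ i, u i • V i = 0 → (∀ i, l i = 0 → u i = 0) →
        ∃ t : ℝ, t ≠ 0 ∧ ∀ i, u i = t * l i := by
  classical
  let P : ℕ → Prop := fun k => ∃ l : ι → ℝ, (l ≠ 0 ∧ ∑ i, l i • V i = 0 ∧ (∀ i ∈ A, 0 ≤ l i) ∧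
    (∀ i ∉ A, l i ≤ 0)) ∧ (univ.filter (fun i => l i ≠ 0)).card = k
  have hP : ∃ k, P k := by
    obtain ⟨l, hl⟩ := h
    exact ⟨_, l, hl, rfl⟩
  obtain ⟨l, ⟨hl0, hl, hA, hA'⟩, hk⟩ := Nat.find_spec hP
  refine ⟨l, hl0, hl, hA, hA', ?_⟩
  -- the case of a positive ratio
  have key : ∀ u : ι → ℝ, (∃ i, 0 < u i * l i) → ∑ i, u i • V i = 0 → (∀ i, l i = 0 → u i = 0) →
      ∃ t : ℝ, t ≠ 0 ∧ ∀ i, u i = t * l i := by
    intro u ⟨i1, hi1⟩ hu hsub
    set X := univ.filter (fun i => l i ≠ 0) with hX
    have hi1l : l i1 ≠ 0 := by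
      intro h0; rw [h0, mul_zero] at hi1; exact lt_irrefl _ hi1
    have hXne : X.Nonempty := ⟨i1, by simp [hX, hi1l]⟩
    obtain ⟨i2, hi2, hmax⟩ := Finset.exists_max_image X (fun i => u i / l i) hXne
    have hi2l : l i2 ≠ 0 := by simpa [hX] using hi2
    have hρ : 0 < u i2 / l i2 := by
      have h1 := hmax i1 (by simp [hX, hi1l])
      have h2 : 0 < u i1 / l i1 := by
        rw [div_eq_mul_inv]
        have : u i1 * (l i1)⁻¹ = (u i1 * l i1) * ((l i1)⁻¹)^2 := by field_simp
        rw [this]; positivity
      linarith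
    set ρ := u i2 / l i2 with hρd
    have hu2 : u i2 = ρ * l i2 := by rw [hρd]; field_simp
    by_cases hz : (fun i => l i - ρ⁻¹ * u i) = 0
    · refine ⟨ρ, hρ.ne', fun i => ?_⟩
      have := congrFun hz i
      simp only [Pi.zero_apply] at this
      have h3 : l i = ρ⁻¹ * u i := by linarith
      rw [h3]; field_simp
    · exfalso
      have hfac : ∀ i, ∃ c : ℝ, 0 ≤ c ∧ l i - ρ⁻¹ * u i = c * l i := by
        intro i
        by_cases hi : l i = 0
        · exact ⟨0, le_rfl, by rw [hi, hsub i hi]; simp⟩
        · refine ⟨1 - ρ⁻¹ * (u i / l i), ?_, by field_simp⟩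
          have := hmax i (by simp [hX, hi])
          have h4 : ρ⁻¹ * (u i / l i) ≤ ρ⁻¹ * ρ := mul_le_mul_of_nonneg_left this (by positivity)
          rw [inv_mul_cancel₀ hρ.ne'] at h4
          linarith
      have hlt : (univ.filter (fun i => l i - ρ⁻¹ * u i ≠ 0)).card < Nat.find hP := by
        rw [← hk]
        apply Finset.card_lt_card
        rw [Finset.ssubset_iff_of_subset]
        · refine ⟨i2, hi2, ?_⟩
          simp only [Finset.mem_filter, Finset.mem_univ, true_and, not_not]
          rw [hu2]; field_simp; ring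
        · intro i hi
          rw [hX]
          simp only [Finset.mem_filter, Finset.mem_univ, true_and] at hi ⊢
          intro h0
          obtain ⟨c, -, hc⟩ := hfac i
          rw [hc, h0, mul_zero] at hi
          exact hi rfl
      refine Nat.find_min hP hlt ⟨fun i => l i - ρ⁻¹ * u i, ⟨hz, ?_, ?_, ?_⟩, rfl⟩
      · simp only [sub_smul, mul_smul]
        rw [Finset.sum_sub_distrib, hl, ← Finset.smul_sum, hu]; simp
      · intro i hi
        obtain ⟨c, hc0, hc⟩ := hfac i
        show 0 ≤ l i - ρ⁻¹ * u i
        rw [hc]; exact mul_nonneg hc0 (hA i hi)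
      · intro i hi
        obtain ⟨c, hc0, hc⟩ := hfac i
        show l i - ρ⁻¹ * u i ≤ 0
        rw [hc]; exact mul_nonpos_of_nonneg_of_nonpos hc0 (hA' i hi)
  intro u hu0 hu hsub
  obtain ⟨i, hi⟩ : ∃ i, u i ≠ 0 := by
    by_contra hcon
    push Not at hcon
    exact hu0 (funext hcon)
  have hli : l i ≠ 0 := fun h0 => hi (hsub i h0)
  rcases lt_or_gt_of_ne (mul_ne_zero hi hli) with hneg | hpos
  · obtain ⟨t, ht0, ht⟩ := key (-u) ⟨i, by simp only [Pi.neg_apply]; linarith⟩
      (by simp only [Pi.neg_apply, neg_smul]; rw [Finset.sum_neg_distrib, hu, neg_zero])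
      (fun j hj => by simp only [Pi.neg_apply]; rw [hsub j hj, neg_zero])
    refine ⟨-t, neg_ne_zero.2 ht0, fun j => ?_⟩
    have := ht j
    simp only [Pi.neg_apply] at this
    linarith
  · exact key u ⟨i, hpos⟩ hu hsub

lemma sum_update (V : ι → E) (i0 : ι) (u : E) (l : ι → ℝ) :
    ∑ i, l i • Function.update V i0 u i = l i0 • u + ∑ i ∈ univ.erase i0, l i • V i := by
  rw [← Finset.add_sum_erase univ _ (Finset.mem_univ i0)]
  rw [Function.update_self]
  congr 1
  apply Finset.sum_congr rfl
  intro i hi
  rw [Function.update_of_ne (Finset.ne_of_mem_erase hi)]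

lemma sum_update_of_zero (V : ι → E) (i0 : ι) (u u' : E) (l : ι → ℝ) (h : l i0 = 0) :
    ∑ i, l i • Function.update V i0 u i = ∑ i, l i • Function.update V i0 u' i := by
  rw [sum_update, sum_update, h, zero_smul, zero_smul]

lemma ind_update {V : ι → E} {i0 : ι} {u : E} {C : Finset ι} (hi : i0 ∉ C) :
    Ind (Function.update V i0 u) C ↔ Ind V C := by
  constructor
  · intro h l hl hs
    apply h l hl
    rw [sum_update, hl i0 hi, zero_smul, zero_add, ← hs,
      ← Finset.add_sum_erase univ _ (Finset.mem_univ i0), hl i0 hi, zero_smul, zero_add]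
  · intro h l hl hs
    apply h l hl
    rw [sum_update, hl i0 hi, zero_smul, zero_add] at hs
    rw [← Finset.add_sum_erase univ _ (Finset.mem_univ i0), hl i0 hi, zero_smul, zero_add, hs]

variable [FiniteDimensional ℝ E]

/-- the coordinates of a dependency supported on `insert i0 C` -/
lemma dep_coord {V : ι → E} {i0 : ι} {C : Finset ι} (hi : i0 ∉ C)
    {g : ι → (E →ₗ[ℝ] ℝ)} (hg1 : ∀ j ∈ C, g j (V j) = 1)
    (hg2 : ∀ j ∈ C, ∀ i ∈ C, i ≠ j → g j (V i) = 0) {u : E} {l : ι → ℝ}
    (hl : ∑ i, l i • Function.update V i0 u i = 0) (hs : ∀ i ∉ insert i0 C, l i = 0) :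
    ∀ j ∈ C, l j = - (l i0 * g j u) := by
  intro j hj
  rw [sum_update] at hl
  have h1 := congrArg (g j) hl
  rw [map_add, map_smul, map_sum, map_zero] at h1
  simp only [map_smul, smul_eq_mul] at h1
  rw [Finset.sum_eq_single j] at h1
  · rw [hg1 j hj] at h1; linarith
  · intro i hi1 hij
    by_cases hiC : i ∈ C
    · rw [hg2 j hj i hiC hij, mul_zero]
    · rw [hs i, zero_mul]
      rw [Finset.mem_insert]
      push Not
      exact ⟨Finset.ne_of_mem_erase hi1, hiC⟩
  · intro hcon
    exfalso
    apply hcon
    rw [Finset.mem_erase]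
    exact ⟨fun h => hi (h ▸ hj), Finset.mem_univ _⟩

/-- the dependency of `insert i0 C` -/
lemma circ_sum {V : ι → E} {i0 : ι} {C : Finset ι} (hi : i0 ∉ C)
    {g : ι → (E →ₗ[ℝ] ℝ)} (hg3 : ∀ j ∉ C, g j = 0) (hg4 : ∀ u, ∑ j, g j u • V j = u)
    (u : E) (c : ℝ) :
    ∑ i, (if i = i0 then c else - (c * g i u)) • Function.update V i0 u i = 0 := by
  rw [sum_update, if_pos rfl]
  have h1 : ∑ i ∈ univ.erase i0, (if i = i0 then c else - (c * g i u)) • V i =
      - (c • ∑ i ∈ univ.erase i0, g i u • V i) := by
    rw [Finset.smul_sum, ← Finset.sum_neg_distrib]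
    apply Finset.sum_congr rfl
    intro i hi'
    rw [if_neg (Finset.ne_of_mem_erase hi'), neg_smul, mul_smul]
  have h2 : ∑ i ∈ univ.erase i0, g i u • V i = u := by
    conv_rhs => rw [← hg4 u]
    rw [← Finset.add_sum_erase univ _ (Finset.mem_univ i0), hg3 i0 hi]
    simp
  rw [h1, h2, add_neg_cancel]

lemma Rad.circ {V : ι → E} {i0 : ι} {u : E} {A : Finset ι}
    (hV : ∀ C : Finset ι, C.card = Module.finrank ℝ E → i0 ∉ C → Ind V C)
    (hcard : Module.finrank ℝ E < Fintype.card ι)
    (h : Rad (Function.update V i0 u) A) :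
    ∃ l : ι → ℝ, l ≠ 0 ∧ ∑ i, l i • Function.update V i0 u i = 0 ∧ (∀ i ∈ A, 0 ≤ l i) ∧
      (∀ i ∉ A, l i ≤ 0) ∧ (l i0 = 0 ∨ (l i0 ≠ 0 ∧ ∃ C : Finset ι, C.card = Module.finrank ℝ E ∧
        i0 ∉ C ∧ ∀ i ∉ insert i0 C, l i = 0)) := by
  classical
  obtain ⟨l, hl0, hl, hA, hA', hmin⟩ := h.exists_min
  refine ⟨l, hl0, hl, hA, hA', ?_⟩
  by_cases hi0 : l i0 = 0
  · exact Or.inl hi0
  right
  refine ⟨hi0, ?_⟩
  set X := (univ.filter (fun i => l i ≠ 0)).erase i0 with hX
  by_cases hXc : X.card ≤ Module.finrank ℝ E
  · obtain ⟨C, hXC, hC, hCc⟩ := Finset.exists_subsuperset_card_eq (t := univ.erase i0)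
      (Finset.erase_subset_erase i0 (Finset.filter_subset _ univ)) hXc (by
        rw [Finset.card_erase_of_mem (Finset.mem_univ _), Finset.card_univ]; omega)
    refine ⟨C, hCc, fun h => Finset.notMem_erase i0 univ (hC h), ?_⟩
    intro i hi
    by_contra hne
    apply hi
    rw [Finset.mem_insert]
    by_cases hii : i = i0
    · exact Or.inl hii
    · right
      apply hXC
      rw [Finset.mem_erase]
      exact ⟨hii, by simp [hne]⟩
  · exfalso
    push Not at hXc
    obtain ⟨C, hCX, hCc⟩ := Finset.exists_subset_card_eq hXc.le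
    have hiC : i0 ∉ C := fun h => Finset.notMem_erase i0 _ (hCX h)
    obtain ⟨g, hg1, hg2, hg3, hg4⟩ := (hV C hCc hiC).coords hCc
    obtain ⟨t, ht0, ht⟩ := hmin (fun i => if i = i0 then 1 else - (1 * g i u)) (by
      intro h0
      have := congrFun h0 i0
      simp at this) (circ_sum hiC hg3 hg4 u 1) (by
      intro i hi
      have hne : i ≠ i0 := fun hh => hi0 (hh ▸ hi)
      simp only [hne, if_false]
      by_cases hiC' : i ∈ C
      · exfalso
        have := hCX hiC'
        rw [hX, Finset.mem_erase, Finset.mem_filter] at this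
        exact this.2.2 hi
      · rw [hg3 i hiC']; simp)
    have hXC : X ⊆ C := by
      intro i hi
      by_contra hiC'
      rw [hX, Finset.mem_erase, Finset.mem_filter] at hi
      have := ht i
      simp only [hi.1, if_false] at this
      rw [hg3 i hiC'] at this
      have h3 : t * l i = 0 := by rw [← this]; simp
      rcases mul_eq_zero.1 h3 with h | h
      · exact ht0 h
      · exact hi.2.2 h
    have := Finset.card_le_card hXC
    omega

/-- sign transfer for circuits -/
lemma transfer {V : ι → E} {i0 : ι} {C A : Finset ι} (hi : i0 ∉ C)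
    {g : ι → (E →ₗ[ℝ] ℝ)} (hg1 : ∀ j ∈ C, g j (V j) = 1)
    (hg2 : ∀ j ∈ C, ∀ i ∈ C, i ≠ j → g j (V i) = 0)
    (hg3 : ∀ j ∉ C, g j = 0) (hg4 : ∀ u, ∑ j, g j u • V j = u)
    {u u' : E} {l : ι → ℝ}
    (hl : ∑ i, l i • Function.update V i0 u i = 0) (hs : ∀ i ∉ insert i0 C, l i = 0)
    (hl0 : l i0 ≠ 0) (hA : ∀ i ∈ A, 0 ≤ l i) (hA' : ∀ i ∉ A, l i ≤ 0)
    (hsg : ∀ j ∈ C, 0 < g j u * g j u' ∨ g j u' = 0) :
    Rad (Function.update V i0 u') A := by
  have hlc := dep_coord hi hg1 hg2 hl hs
  refine ⟨fun i => if i = i0 then l i0 else - (l i0 * g i u'), ?_, circ_sum hi hg3 hg4 u' _, ?_, ?_⟩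
  · intro h0
    have := congrFun h0 i0
    simp at this
    exact hl0 this
  · intro i hiA
    by_cases hii : i = i0
    · simp only [hii, if_true]; exact hA i0 (hii ▸ hiA)
    · simp only [hii, if_false]
      by_cases hiC : i ∈ C
      · rcases hsg i hiC with h | h
        · have h1 := hA i hiA
          rw [hlc i hiC] at h1
          by_contra hcon
          push Not at hcon
          have : 0 ≤ (-(l i0 * g i u)) * (l i0 * g i u') := mul_nonneg h1 (by linarith)
          have h2 : (-(l i0 * g i u)) * (l i0 * g i u') = - ((l i0)^2 * (g i u * g i u')) := by ring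
          have h3 : 0 < (l i0)^2 * (g i u * g i u') := by positivity
          linarith
        · rw [h]; simp
      · rw [hg3 i hiC]; simp
  · intro i hiA
    by_cases hii : i = i0
    · simp only [hii, if_true]; exact hA' i0 (hii ▸ hiA)
    · simp only [hii, if_false]
      by_cases hiC : i ∈ C
      · rcases hsg i hiC with h | h
        · have h1 := hA' i hiA
          rw [hlc i hiC] at h1
          by_contra hcon
          push Not at hcon
          have : 0 ≤ (-(-(l i0 * g i u))) * (-(l i0 * g i u')) := mul_nonneg (by linarith) hcon.le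
          have h2 : (-(-(l i0 * g i u))) * (-(l i0 * g i u')) = - ((l i0)^2 * (g i u * g i u')) := by
            ring
          have h3 : 0 < (l i0)^2 * (g i u * g i u') := by positivity
          linarith
        · rw [h]; simp
      · rw [hg3 i hiC]; simp

/-- no wall is crossed -/
theorem no_cross (V : ι → E) (i0 : ι) (x y : E)
    (hV : ∀ C : Finset ι, C.card = Module.finrank ℝ E → i0 ∉ C → Ind V C)
    (hcard : Module.finrank ℝ E < Fintype.card ι)
    (hH : ∀ (D' : Finset ι) (g : E →ₗ[ℝ] ℝ), D'.card + 1 = Module.finrank ℝ E → i0 ∉ D' →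
      g ≠ 0 → (∀ j ∈ D', g (V j) = 0) → 0 < g x * g y) (A : Finset ι)
    (h : Rad (Function.update V i0 x) A) : Rad (Function.update V i0 y) A := by
  obtain ⟨l, hl0, hl, hA, hA', hc | ⟨hi0, C, hCc, hiC, hs⟩⟩ := h.circ hV hcard
  · exact ⟨l, hl0, by rw [sum_update_of_zero V i0 y x l hc]; exact hl, hA, hA'⟩
  · obtain ⟨g, hg1, hg2, hg3, hg4⟩ := (hV C hCc hiC).coords hCc
    refine transfer hiC hg1 hg2 hg3 hg4 hl hs hi0 hA hA' (fun j hj => Or.inl ?_)
    refine hH (C.erase j) (g j) ?_ (fun h => hiC (Finset.mem_of_mem_erase h)) ?_ ?_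
    · rw [Finset.card_erase_of_mem hj, ← hCc]
      have := Finset.card_pos.2 ⟨j, hj⟩
      omega
    · intro h0
      have := hg1 j hj
      rw [h0] at this
      simp at this
    · intro i hi
      exact hg2 j hj i (Finset.mem_of_mem_erase hi) (Finset.ne_of_mem_erase hi)

/-- The Radon type partitions of a configuration with exactly one degenerate hyperplane, and of the
configurations on its two sides. -/
theorem half_cross (V : ι → E) (i0 : ι) (D : Finset ι) (f : E →ₗ[ℝ] ℝ) (x z : E)
    (hV : ∀ C : Finset ι, C.card = Module.finrank ℝ E → i0 ∉ C → Ind V C)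
    (hD : D.card + 1 = Module.finrank ℝ E) (hiD : i0 ∉ D)
    (hfD : ∀ j ∈ D, f (V j) = 0) (hfE : ∀ e, e ∉ D → e ≠ i0 → f (V e) ≠ 0)
    (hfx : f x ≠ 0)
    (hH : ∀ (D' : Finset ι) (g : E →ₗ[ℝ] ℝ), D'.card + 1 = Module.finrank ℝ E → i0 ∉ D' →
      D' ≠ D → g ≠ 0 → (∀ j ∈ D', g (V j) = 0) → 0 < g x * g z)
    (hE : ∃ e, e ∉ D ∧ e ≠ i0)
    (β : ι → ℝ) (hβ : z = ∑ j ∈ D, β j • V j)
    (B : Finset ι) (hB0 : i0 ∈ B) (hBD : ∀ j ∈ D, (j ∈ B ↔ β j < 0))
    (hBE : ∀ e, e ∉ D → e ≠ i0 → (e ∈ B ↔ 0 < f x * f (V e))) :
    (∀ A, Rad (Function.update V i0 x) A ↔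
      Rad (Function.update V i0 z) A ∧ A ≠ B ∧ A ≠ Bᶜ) ∧
    Rad (Function.update V i0 z) B := by
  classical
  have hcard : Module.finrank ℝ E < Fintype.card ι := by
    obtain ⟨e, he, hei⟩ := hE
    have h1 : (insert e (insert i0 D)).card ≤ Fintype.card ι := Finset.card_le_univ _
    rw [Finset.card_insert_of_notMem, Finset.card_insert_of_notMem hiD] at h1
    · omega
    · rw [Finset.mem_insert]; push Not; exact ⟨hei, he⟩
  -- coordinates with respect to `insert e D`
  have hco : ∀ e, e ∉ D → e ≠ i0 → ∃ g : ι → (E →ₗ[ℝ] ℝ),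
      (∀ j ∈ insert e D, g j (V j) = 1) ∧
      (∀ j ∈ insert e D, ∀ i ∈ insert e D, i ≠ j → g j (V i) = 0) ∧
      (∀ j ∉ insert e D, g j = 0) ∧ (∀ u, ∑ j, g j u • V j = u) ∧
      (∀ j ∈ D, 0 < g j x * β j) ∧ (0 < (f x * f (V e)) * g e x) := by
    intro e he hei
    have hc : (insert e D).card = Module.finrank ℝ E := by
      rw [Finset.card_insert_of_notMem he, hD]
    have hiC : i0 ∉ insert e D := by
      rw [Finset.mem_insert]; push Not; exact ⟨hei.symm, hiD⟩
    obtain ⟨g, hg1, hg2, hg3, hg4⟩ := (hV _ hc hiC).coords hc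
    refine ⟨g, hg1, hg2, hg3, hg4, ?_, ?_⟩
    · intro j hj
      have hj' : j ∈ insert e D := Finset.mem_insert_of_mem hj
      have hgz : g j z = β j := by
        rw [hβ, map_sum, Finset.sum_eq_single j]
        · rw [map_smul, hg1 j hj']; simp
        · intro i hi hij
          rw [map_smul, hg2 j hj' i (Finset.mem_insert_of_mem hi) hij]; simp
        · intro h; exact absurd hj h
      rw [← hgz]
      refine hH ((insert e D).erase j) (g j) ?_ (fun h => hiC (Finset.mem_of_mem_erase h)) ?_ ?_ ?_
      · rw [Finset.card_erase_of_mem hj', hc]; omega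
      · intro h
        have : e ∈ (insert e D).erase j := by
          rw [Finset.mem_erase]
          exact ⟨fun hh => he (hh ▸ hj), Finset.mem_insert_self _ _⟩
        rw [h] at this
        exact he this
      · intro h0
        have := hg1 j hj'
        rw [h0] at this
        simp at this
      · intro i hi
        exact hg2 j hj' i (Finset.mem_of_mem_erase hi) (Finset.ne_of_mem_erase hi)
    · have h1 : f x = g e x * f (V e) := by
        conv_lhs => rw [← hg4 x]
        rw [map_sum, Finset.sum_eq_single e]
        · simp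
        · intro i _ hie
          by_cases hi : i ∈ D
          · rw [map_smul, hfD i hi]; simp
          · rw [hg3 i (by rw [Finset.mem_insert]; push Not; exact ⟨hie, hi⟩)]; simp
        · intro h; exact absurd (Finset.mem_univ _) h
      have h2 : g e x ≠ 0 := by
        intro h0; rw [h0, zero_mul] at h1; exact hfx h1
      have h3 : (f x * f (V e)) * g e x = (g e x)^2 * (f (V e))^2 := by rw [h1]; ring
      rw [h3]
      have := hfE e he hei
      positivity
  obtain ⟨e0, he0, hei0⟩ := hE
  obtain ⟨g0, -, -, -, -, hg05, -⟩ := hco e0 he0 hei0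
  have hβ0 : ∀ j ∈ D, β j ≠ 0 := by
    intro j hj h0
    have := hg05 j hj
    rw [h0, mul_zero] at this
    exact lt_irrefl _ this
  have hIndD : Ind V D := by
    refine (hV (insert e0 D) ?_ ?_).mono (Finset.subset_insert _ _)
    · rw [Finset.card_insert_of_notMem he0, hD]
    · rw [Finset.mem_insert]; push Not; exact ⟨hei0.symm, hiD⟩
  -- `B` is not of Radon type for `x`
  have hnot : ¬ Rad (Function.update V i0 x) B := by
    rintro ⟨l, hl0, hl, h1, h2⟩
    apply hl0
    have hsum := congrArg (fun v => f x * f v) hl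
    simp only [map_sum, map_smul, map_zero, mul_zero, Finset.mul_sum] at hsum
    have hterm : ∀ i ∈ univ, 0 ≤ f x * (l i • f (Function.update V i0 x i)) := by
      intro i _
      rw [smul_eq_mul]
      by_cases hi : i = i0
      · subst hi
        rw [Function.update_self]
        have := h1 i hB0
        have h3 : f x * (l i * f x) = l i * (f x)^2 := by ring
        rw [h3]; positivity
      · rw [Function.update_of_ne hi]
        by_cases hiD' : i ∈ D
        · rw [hfD i hiD']; simp
        · have h3 : f x * (l i * f (V i)) = l i * (f x * f (V i)) := by ring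
          rw [h3]
          by_cases hiB : i ∈ B
          · exact mul_nonneg (h1 i hiB) ((hBE i hiD' hi).1 hiB).le
          · apply mul_nonneg_of_nonpos_of_nonpos (h2 i hiB)
            by_contra hcon
            push Not at hcon
            exact hiB ((hBE i hiD' hi).2 hcon)
    have hz := (Finset.sum_eq_zero_iff_of_nonneg hterm).1 hsum
    have hli : ∀ i ∉ D, l i = 0 := by
      intro i hi
      have h4 := hz i (Finset.mem_univ _)
      by_cases hii : i = i0
      · subst hii
        rw [Function.update_self, smul_eq_mul] at h4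
        rcases mul_eq_zero.1 h4 with h | h
        · exact absurd h hfx
        · rcases mul_eq_zero.1 h with h | h
          · exact h
          · exact absurd h hfx
      · rw [Function.update_of_ne hii, smul_eq_mul] at h4
        rcases mul_eq_zero.1 h4 with h | h
        · exact absurd h hfx
        · rcases mul_eq_zero.1 h with h | h
          · exact h
          · exact absurd h (hfE i hi hii)
    exact ((ind_update hiD).2 hIndD) l hli hl
  -- from `z` to `x`
  have hzx : ∀ A, i0 ∈ A → Rad (Function.update V i0 z) A → A ≠ B →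
      Rad (Function.update V i0 x) A := by
    intro A hiA h hAB
    obtain ⟨l, hl0, hl, hA, hA', hc | ⟨hi0, C, hCc, hiC, hs⟩⟩ := h.circ hV hcard
    · exact ⟨l, hl0, by rw [sum_update_of_zero V i0 x z l hc]; exact hl, hA, hA'⟩
    · obtain ⟨g, hg1, hg2, hg3, hg4⟩ := (hV C hCc hiC).coords hCc
      by_cases hDC : D ⊆ C
      · -- then `A` and `B` agree on `D`
        have hlc := dep_coord hiC hg1 hg2 hl hs
        have hpos : 0 < l i0 := lt_of_le_of_ne (hA i0 hiA) (Ne.symm hi0)
        have hgz : ∀ j ∈ D, g j z = β j := by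
          intro j hj
          rw [hβ, map_sum, Finset.sum_eq_single j]
          · rw [map_smul, hg1 j (hDC hj)]; simp
          · intro i hi hij
            rw [map_smul, hg2 j (hDC hj) i (hDC hi) hij]; simp
          · intro h; exact absurd hj h
        have hAD : ∀ j ∈ D, (j ∈ A ↔ j ∈ B) := by
          intro j hj
          rw [hBD j hj]
          have h1 := hlc j (hDC hj)
          rw [hgz j hj] at h1
          constructor
          · intro hjA
            have h2 := hA j hjA
            rw [h1] at h2
            by_contra hcon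
            push Not at hcon
            have h3 : 0 < β j := lt_of_le_of_ne hcon (Ne.symm (hβ0 j hj))
            have : 0 < l i0 * β j := mul_pos hpos h3
            linarith
          · intro hneg
            by_contra hjA
            have h2 := hA' j hjA
            rw [h1] at h2
            have : l i0 * β j < 0 := mul_neg_of_pos_of_neg hpos hneg
            linarith
        obtain ⟨e, he⟩ : ∃ e, ¬ (e ∈ A ↔ e ∈ B) := by
          by_contra hcon
          push Not at hcon
          exact hAB (Finset.ext hcon)
        have heD : e ∉ D := fun h => he (hAD e h)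
        have hei : e ≠ i0 := fun h => he (by rw [h]; exact ⟨fun _ => hB0, fun _ => hiA⟩)
        obtain ⟨g', hg1', hg2', hg3', hg4', hg5', hg6'⟩ := hco e heD hei
        have hie : i0 ∉ insert e D := by
          rw [Finset.mem_insert]; push Not; exact ⟨hei.symm, hiD⟩
        have hBe := hBE e heD hei
        have hfe : f x * f (V e) ≠ 0 := mul_ne_zero hfx (hfE e heD hei)
        refine ⟨fun i => if i = i0 then 1 else - (1 * g' i x), ?_, circ_sum hie hg3' hg4' x 1,
          ?_, ?_⟩
        · intro h0
          have := congrFun h0 i0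
          simp at this
        · intro i hi
          by_cases hii : i = i0
          · simp [hii]
          · simp only [hii, if_false, one_mul]
            by_cases hiD' : i ∈ D
            · have h1 : β i < 0 := (hBD i hiD').1 ((hAD i hiD').1 hi)
              have h2 := hg5' i hiD'
              have h3 : g' i x < 0 := by
                by_contra hcon
                push Not at hcon
                have := mul_nonpos_of_nonneg_of_nonpos hcon h1.le
                linarith
              linarith
            · by_cases hie' : i = e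
              · subst hie'
                have h1 : i ∉ B := fun h => he ⟨fun _ => h, fun _ => hi⟩
                have h2 : f x * f (V i) < 0 := by
                  rcases lt_or_gt_of_ne hfe with h | h
                  · exact h
                  · exact absurd (hBe.2 h) h1
                have h3 : g' i x < 0 := by
                  by_contra hcon
                  push Not at hcon
                  have := mul_nonpos_of_nonpos_of_nonneg h2.le hcon
                  linarith
                linarith
              · rw [hg3' i (by rw [Finset.mem_insert]; push Not; exact ⟨hie', hiD'⟩)]; simp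
        · intro i hi
          by_cases hii : i = i0
          · subst hii; exact absurd hiA hi
          · simp only [hii, if_false, one_mul]
            by_cases hiD' : i ∈ D
            · have h1 : ¬ β i < 0 := fun h => hi ((hAD i hiD').2 ((hBD i hiD').2 h))
              have h2 := hg5' i hiD'
              push Not at h1
              have h3 : 0 < g' i x := by
                by_contra hcon
                push Not at hcon
                have := mul_nonpos_of_nonpos_of_nonneg hcon h1
                linarith
              linarith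
            · by_cases hie' : i = e
              · subst hie'
                have h1 : i ∈ B := by
                  by_contra h
                  exact he ⟨fun h' => absurd h' hi, fun h' => absurd h' h⟩
                have h2 := hBe.1 h1
                have h3 : 0 < g' i x := by
                  by_contra hcon
                  push Not at hcon
                  have := mul_nonpos_of_nonneg_of_nonpos h2.le hcon
                  linarith
                linarith
              · rw [hg3' i (by rw [Finset.mem_insert]; push Not; exact ⟨hie', hiD'⟩)]; simp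
      · refine transfer hiC hg1 hg2 hg3 hg4 hl hs hi0 hA hA' (fun j hj => Or.inl ?_)
        rw [mul_comm]
        refine hH (C.erase j) (g j) ?_ (fun h => hiC (Finset.mem_of_mem_erase h)) ?_ ?_ ?_
        · rw [Finset.card_erase_of_mem hj, ← hCc]
          have := Finset.card_pos.2 ⟨j, hj⟩
          omega
        · intro h
          apply hDC
          rw [← h]
          exact Finset.erase_subset _ _
        · intro h0
          have := hg1 j hj
          rw [h0] at this
          simp at this
        · intro i hi
          exact hg2 j hj i (Finset.mem_of_mem_erase hi) (Finset.ne_of_mem_erase hi)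
  -- from `x` to `z`
  have hxz : ∀ A, Rad (Function.update V i0 x) A → Rad (Function.update V i0 z) A := by
    intro A h
    obtain ⟨l, hl0, hl, hA, hA', hc | ⟨hi0, C, hCc, hiC, hs⟩⟩ := h.circ hV hcard
    · exact ⟨l, hl0, by rw [sum_update_of_zero V i0 z x l hc]; exact hl, hA, hA'⟩
    · obtain ⟨g, hg1, hg2, hg3, hg4⟩ := (hV C hCc hiC).coords hCc
      refine transfer hiC hg1 hg2 hg3 hg4 hl hs hi0 hA hA' (fun j hj => ?_)
      by_cases hCD : C.erase j = D
      · right
        rw [hβ, map_sum]
        apply Finset.sum_eq_zero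
        intro i hi
        rw [← hCD] at hi
        rw [map_smul, hg2 j hj i (Finset.mem_of_mem_erase hi) (Finset.ne_of_mem_erase hi)]
        simp
      · left
        refine hH (C.erase j) (g j) ?_ (fun h => hiC (Finset.mem_of_mem_erase h)) hCD ?_ ?_
        · rw [Finset.card_erase_of_mem hj, ← hCc]
          have := Finset.card_pos.2 ⟨j, hj⟩
          omega
        · intro h0
          have := hg1 j hj
          rw [h0] at this
          simp at this
        · intro i hi
          exact hg2 j hj i (Finset.mem_of_mem_erase hi) (Finset.ne_of_mem_erase hi)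
  refine ⟨fun A => ⟨fun h => ⟨hxz A h, ?_, ?_⟩, ?_⟩, ?_⟩
  · rintro rfl
    exact hnot h
  · rintro rfl
    exact hnot (rad_compl_iff.1 h)
  · rintro ⟨h1, h2, h3⟩
    by_cases hiA : i0 ∈ A
    · exact hzx A hiA h1 h2
    · rw [← rad_compl_iff] at h1 ⊢
      refine hzx Aᶜ (Finset.mem_compl.2 hiA) h1 ?_
      intro h
      apply h3
      rw [← h, compl_compl]
  · refine ⟨fun i => if i = i0 then 1 else if i ∈ D then - β i else 0, ?_, ?_, ?_, ?_⟩
    · intro h0
      have := congrFun h0 i0
      simp at this
    · rw [sum_update, if_pos rfl, one_smul]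
      rw [← Finset.sum_subset (s₁ := D)]
      · conv_lhs => rw [hβ]
        rw [← Finset.sum_add_distrib]
        apply Finset.sum_eq_zero
        intro i hi
        have hii : i ≠ i0 := fun h => hiD (h ▸ hi)
        rw [if_neg hii, if_pos hi, neg_smul, add_neg_cancel]
      · intro i hi
        rw [Finset.mem_erase]
        exact ⟨fun h => hiD (h ▸ hi), Finset.mem_univ _⟩
      · intro i hi hi'
        rw [if_neg (Finset.ne_of_mem_erase hi), if_neg hi', zero_smul]
    · intro i hi
      by_cases hii : i = i0
      · simp [hii]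
      · simp only [hii, if_false]
        split_ifs with h
        · have := (hBD i h).1 hi
          linarith
        · exact le_rfl
    · intro i hi
      by_cases hii : i = i0
      · subst hii; exact absurd hB0 hi
      · simp only [hii, if_false]
        split_ifs with h
        · have : ¬ β i < 0 := fun h' => hi ((hBD i h).2 h')
          linarith
        · exact le_rfl

end

end Pool.Agent.H77.RL
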