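import Pool.Agent.H77.RL.Mom
import Pool.Agent.H77.RL.Defs
import Pool.Agent.H54.Radon.SuppSuff

namespace Pool.Agent.H77.RL

open Finset Pool.Agent.H54.Radon

section

variable {m d : ℕ}

/-- the unit vector with index `j` or `m - j` -/
def uu (m j : ℕ) : Fin (m / 2) → ℤ := fun i => if j = (i : ℕ) + 1 ∨ m - j = (i : ℕ) + 1 then 1 else 0

lemma uu_comm {j : ℕ} (hj : j ≤ m) : uu m (m - j) = uu m j := by
  funext i
  unfold uu
  have : m - (m - j) = j := by omega
  rw [this]
  simp only [or_comm]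

lemma uu_single (i : Fin (m / 2)) : uu m ((i : ℕ) + 1) = Pi.single i 1 := by
  funext j
  have hi := i.2
  have hj := j.2
  unfold uu
  by_cases h : j = i
  · rw [h, Pi.single_eq_same, if_pos (Or.inl rfl)]
  · rw [Pi.single_eq_of_ne h, if_neg]
    have h' : (j : ℕ) ≠ i := fun h' => h (Fin.ext h')
    omega

/-- the direction of the lattice of Radon vectors in general position -/
lemma wall_mem {a k : ℕ} (hd : 2 ≤ d) (hm : d + 2 ≤ m) (ha : 1 ≤ a) (had : a ≤ d)
    (hk : k + d + 1 ≤ m) :
    uu m (a + k) - uu m (d + 1 - a + k) ∈ vectorSpan ℤ (radonVecs d m GenPos) := by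
  obtain ⟨Sz, Sx, Sy, hz, hx, hy, hgx, hgy, h⟩ := realize hd hm ha had hk
  have hx' : (fun i : Fin (m / 2) => (radonCount Sx (i + 1) : ℤ)) ∈ radonVecs d m GenPos :=
    ⟨Sx, hx, hgx, fun _ => rfl⟩
  have hy' : (fun i : Fin (m / 2) => (radonCount Sy (i + 1) : ℤ)) ∈ radonVecs d m GenPos :=
    ⟨Sy, hy, hgy, fun _ => rfl⟩
  have h1 := vsub_mem_vectorSpan ℤ hy' hx'
  have e : (fun i : Fin (m / 2) => (radonCount Sy (i + 1) : ℤ)) -ᵥ
      (fun i : Fin (m / 2) => (radonCount Sx (i + 1) : ℤ)) =
      uu m (a + k) - uu m (d + 1 - a + k) := by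
    funext i
    have h2 := (h ((i : ℕ) + 1)).1
    have h3 := (h ((i : ℕ) + 1)).2
    have h4 : ((radonCount Sz ((i : ℕ) + 1) : ℕ) : ℤ) = radonCount Sx ((i : ℕ) + 1) + uu m (a + k) i := by
      rw [h2]; unfold uu; push_cast; rfl
    have h5 : ((radonCount Sz ((i : ℕ) + 1) : ℕ) : ℤ) =
        radonCount Sy ((i : ℕ) + 1) + uu m (d + 1 - a + k) i := by
      rw [h3]; unfold uu; push_cast
      simp only [or_comm]
    show (radonCount Sy ((i : ℕ) + 1) : ℤ) - radonCount Sx ((i : ℕ) + 1) =
      uu m (a + k) i - uu m (d + 1 - a + k) i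
    linarith
  rwa [e] at h1

/-- one step of the graph on the indices -/
lemma step (hd : 2 ≤ d) (hm : d + 2 ≤ m) (M : Submodule ℤ (Fin (m / 2) → ℤ))
    (hM : ∀ a k, 1 ≤ a → a ≤ d → k + d + 1 ≤ m → uu m (a + k) - uu m (d + 1 - a + k) ∈ M)
    {s : ℕ} (hs1 : 1 ≤ s) (hs : s < m / 2) :
    ∃ s', s < s' ∧ s' ≤ m / 2 ∧ uu m s - uu m s' ∈ M ∧
      ((Odd d → Even m → s + 2 ≤ m / 2 → s' % 2 = s % 2)) ∨
      (Odd d ∧ Even m ∧ s + 1 = m / 2) := by
  have hpar : ∀ n : ℕ, Odd n ↔ n % 2 = 1 := fun n => Nat.odd_iff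
  have hpar' : ∀ n : ℕ, Even n ↔ n % 2 = 0 := fun n => Nat.even_iff
  rcases Nat.lt_or_ge s (d / 2) with h | h
  · -- small index
    have h1 := hM s 0 hs1 (by omega) (by omega)
    rw [add_zero, add_zero] at h1
    by_cases h2 : d + 1 - s ≤ m / 2
    · refine ⟨d + 1 - s, Or.inl ⟨by omega, h2, h1, ?_⟩⟩
      rw [hpar, hpar']
      intro h3 h4 _
      omega
    · refine ⟨m - (d + 1 - s), Or.inl ⟨by omega, by omega, ?_, ?_⟩⟩
      · rw [uu_comm (by omega)]; exact h1
      · rw [hpar, hpar']
        intro h3 h4 _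
        omega
  · -- large index
    have h1 := hM (d / 2) (s - d / 2) (by omega) (by omega) (by omega)
    have e1 : d / 2 + (s - d / 2) = s := by omega
    rw [e1] at h1
    by_cases hdo : d % 2 = 0
    · have e2 : d + 1 - d / 2 + (s - d / 2) = s + 1 := by omega
      rw [e2] at h1
      refine ⟨s + 1, Or.inl ⟨by omega, by omega, h1, ?_⟩⟩
      rw [hpar]
      intro h3
      omega
    · have e2 : d + 1 - d / 2 + (s - d / 2) = s + 2 := by omega
      rw [e2] at h1
      by_cases h2 : s + 2 ≤ m / 2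
      · refine ⟨s + 2, Or.inl ⟨by omega, h2, h1, ?_⟩⟩
        intro _ _ _
        omega
      · by_cases hme : m % 2 = 0
        · refine ⟨s, Or.inr ?_⟩
          rw [hpar, hpar']
          omega
        · refine ⟨m / 2, Or.inl ⟨hs, le_rfl, ?_, ?_⟩⟩
          · have e3 : uu m (m - (s + 2)) = uu m (s + 2) := uu_comm (by omega)
            have e4 : m - (s + 2) = m / 2 := by omega
            rw [e4] at e3
            rw [e3]
            exact h1
          · rw [hpar']
            intro _ h4
            omega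

lemma conn_full (hd : 2 ≤ d) (hm : d + 2 ≤ m) (hp : ¬ (Odd d ∧ Even m))
    (M : Submodule ℤ (Fin (m / 2) → ℤ))
    (hM : ∀ a k, 1 ≤ a → a ≤ d → k + d + 1 ≤ m → uu m (a + k) - uu m (d + 1 - a + k) ∈ M) :
    ∀ n s, m / 2 - s = n → 1 ≤ s → s ≤ m / 2 → uu m s - uu m (m / 2) ∈ M := by
  intro n
  induction n using Nat.strong_induction_on with
  | _ n ih =>
    intro s hn hs1 hs
    rcases hs.lt_or_eq with h | h
    · obtain ⟨s', h1 | h1⟩ := step hd hm M hM hs1 h
      · obtain ⟨h2, h3, h4, -⟩ := h1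
        have h5 := ih (m / 2 - s') (by omega) s' rfl (by omega) h3
        have := M.add_mem h4 h5
        rwa [sub_add_sub_cancel] at this
      · exact absurd ⟨h1.1, h1.2.1⟩ hp
    · rw [h, sub_self]; exact M.zero_mem

lemma conn_par (hd : 2 ≤ d) (hm : d + 2 ≤ m) (hdo : Odd d) (hme : Even m)
    (M : Submodule ℤ (Fin (m / 2) → ℤ))
    (hM : ∀ a k, 1 ≤ a → a ≤ d → k + d + 1 ≤ m → uu m (a + k) - uu m (d + 1 - a + k) ∈ M) :
    ∀ n s, m / 2 - s = n → 1 ≤ s → s ≤ m / 2 →
      uu m s - uu m (if s % 2 = (m / 2) % 2 then m / 2 else m / 2 - 1) ∈ M := by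
  intro n
  induction n using Nat.strong_induction_on with
  | _ n ih =>
    intro s hn hs1 hs
    rcases hs.lt_or_eq with h | h
    · by_cases hs2 : s + 2 ≤ m / 2
      · obtain ⟨s', h1 | h1⟩ := step hd hm M hM hs1 h
        · obtain ⟨h2, h3, h4, h5⟩ := h1
          have h6 := h5 hdo hme hs2
          have h7 := ih (m / 2 - s') (by omega) s' rfl (by omega) h3
          rw [h6] at h7
          have := M.add_mem h4 h7
          rwa [sub_add_sub_cancel] at this
        · omega
      · have e : s = m / 2 - 1 := by omega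
        rw [if_neg (by omega), ← e, sub_self]
        exact M.zero_mem
    · rw [if_pos (by rw [h]), h, sub_self]; exact M.zero_mem

lemma sum_single (u : Fin (m / 2) → ℤ) : u = ∑ i, u i • uu m ((i : ℕ) + 1) := by
  funext j
  rw [Finset.sum_apply, Finset.sum_eq_single j]
  · rw [uu_single]; simp
  · intro i _ hij
    rw [uu_single]
    simp [Pi.single_apply, hij.symm]
  · intro h; exact absurd (Finset.mem_univ _) h

lemma mem_full (M : Submodule ℤ (Fin (m / 2) → ℤ))
    (h : ∀ s, 1 ≤ s → s ≤ m / 2 → uu m s - uu m (m / 2) ∈ M) (u : Fin (m / 2) → ℤ)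
    (hu : ∑ i, u i = 0) : u ∈ M := by
  have e : u = ∑ i, u i • (uu m ((i : ℕ) + 1) - uu m (m / 2)) := by
    simp only [smul_sub]
    rw [Finset.sum_sub_distrib, ← Finset.sum_smul, hu, zero_smul, sub_zero]
    exact sum_single u
  rw [e]
  apply Submodule.sum_mem
  intro i _
  apply Submodule.smul_mem
  exact h _ (by omega) (by have := i.2; omega)

lemma mem_par (M : Submodule ℤ (Fin (m / 2) → ℤ))
    (h : ∀ s, 1 ≤ s → s ≤ m / 2 →
      uu m s - uu m (if s % 2 = (m / 2) % 2 then m / 2 else m / 2 - 1) ∈ M)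
    (u : Fin (m / 2) → ℤ) (hu : ∑ i, u i = 0)
    (hu' : ∑ i : Fin (m / 2), (-1 : ℤ) ^ ((i : ℕ) + 1) * u i = 0) : u ∈ M := by
  set p : Fin (m / 2) → Prop := fun i => ((i : ℕ) + 1) % 2 = (m / 2) % 2 with hp
  have hs1 : ∑ i ∈ univ.filter (fun i => p i), u i + ∑ i ∈ univ.filter (fun i => ¬ p i), u i = 0 := by
    rw [Finset.sum_filter_add_sum_filter_not]; exact hu
  have hs2 : (-1 : ℤ) ^ (m / 2) * (∑ i ∈ univ.filter (fun i => p i), u i -
      ∑ i ∈ univ.filter (fun i => ¬ p i), u i) = 0 := by
    rw [← hu', ← Finset.sum_filter_add_sum_filter_not univ (fun i => p i), mul_sub, sub_eq_add_neg]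
    congr 1
    · rw [Finset.mul_sum]
      apply Finset.sum_congr rfl
      intro i hi
      have h1 : p i := (Finset.mem_filter.1 hi).2
      congr 1
      exact neg_one_pow_congr (by rw [Nat.even_iff, Nat.even_iff]; simp only [hp] at h1; omega)
    · rw [← mul_neg, ← Finset.sum_neg_distrib, Finset.mul_sum]
      apply Finset.sum_congr rfl
      intro i hi
      have h1 : ¬ p i := (Finset.mem_filter.1 hi).2
      have h2 : (-1 : ℤ) ^ ((i : ℕ) + 1) = - (-1 : ℤ) ^ (m / 2) := by
        have : (-1 : ℤ) ^ ((i : ℕ) + 1) = (-1 : ℤ) ^ (m / 2 + 1) :=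
          neg_one_pow_congr (by rw [Nat.even_iff, Nat.even_iff]; simp only [hp] at h1; omega)
        rw [this, pow_succ]; ring
      rw [h2]; ring
  have hs3 : ∑ i ∈ univ.filter (fun i => p i), u i = ∑ i ∈ univ.filter (fun i => ¬ p i), u i := by
    rcases mul_eq_zero.1 hs2 with h3 | h3
    · exact absurd h3 (pow_ne_zero _ (by norm_num))
    · linarith
  have hA : ∑ i ∈ univ.filter (fun i => p i), u i = 0 := by linarith
  have hB : ∑ i ∈ univ.filter (fun i => ¬ p i), u i = 0 := by linarith
  have e : u = ∑ i, u i • (uu m ((i : ℕ) + 1) -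
      uu m (if ((i : ℕ) + 1) % 2 = (m / 2) % 2 then m / 2 else m / 2 - 1)) := by
    have e2 : ∑ i : Fin (m / 2), u i •
        uu m (if ((i : ℕ) + 1) % 2 = (m / 2) % 2 then m / 2 else m / 2 - 1) = 0 := by
      rw [← Finset.sum_filter_add_sum_filter_not univ (fun i => p i)]
      have e3 : ∑ i ∈ univ.filter (fun i => p i), u i •
          uu m (if ((i : ℕ) + 1) % 2 = (m / 2) % 2 then m / 2 else m / 2 - 1) =
          ∑ i ∈ univ.filter (fun i => p i), u i • uu m (m / 2) := by
        apply Finset.sum_congr rfl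
        intro i hi
        have h1 : p i := (Finset.mem_filter.1 hi).2
        rw [if_pos h1]
      have e4 : ∑ i ∈ univ.filter (fun i => ¬ p i), u i •
          uu m (if ((i : ℕ) + 1) % 2 = (m / 2) % 2 then m / 2 else m / 2 - 1) =
          ∑ i ∈ univ.filter (fun i => ¬ p i), u i • uu m (m / 2 - 1) := by
        apply Finset.sum_congr rfl
        intro i hi
        have h1 : ¬ p i := (Finset.mem_filter.1 hi).2
        rw [if_neg h1]
      rw [e3, e4, ← Finset.sum_smul, ← Finset.sum_smul, hA, hB, zero_smul, zero_smul, add_zero]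
    simp only [smul_sub]
    rw [Finset.sum_sub_distrib, e2, sub_zero]
    exact sum_single u
  rw [e]
  apply Submodule.sum_mem
  intro i _
  apply Submodule.smul_mem
  exact h _ (by omega) (by have := i.2; omega)

/-- The affine lattice of the Radon vectors of points in general position. -/
theorem genPos_lattice (hd : 2 ≤ d) (hm : d + 2 ≤ m) (v : Fin (m / 2) → ℤ) :
    v ∈ affineSpan ℤ (radonVecs d m GenPos) ↔
      (∑ i, v i = ∑ k ∈ Icc (d + 1) (m - 1), ((m - 1).choose k : ℤ)) ∧
      (Odd d → Even m → ∑ i : Fin (m / 2), (-1 : ℤ) ^ ((i : ℕ) + 1) * v i = 0) := by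
  constructor
  · intro hv
    let A : AffineSubspace ℤ (Fin (m / 2) → ℤ) :=
      { carrier := {v | (∑ i, v i = ∑ k ∈ Icc (d + 1) (m - 1), ((m - 1).choose k : ℤ)) ∧
          (Odd d → Even m → ∑ i : Fin (m / 2), (-1 : ℤ) ^ ((i : ℕ) + 1) * v i = 0)}
        smul_vsub_vadd_mem' := by
          rintro c p1 p2 p3 ⟨h1, h1'⟩ ⟨h2, h2'⟩ ⟨h3, h3'⟩
          constructor
          · show ∑ i, (c * (p1 i - p2 i) + p3 i) = _
            rw [Finset.sum_add_distrib, ← Finset.mul_sum, Finset.sum_sub_distrib, h1, h2, h3]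
            ring
          · intro ho he
            show ∑ i : Fin (m / 2), (-1 : ℤ) ^ ((i : ℕ) + 1) * (c * (p1 i - p2 i) + p3 i) = 0
            have e : ∀ i : Fin (m / 2), (-1 : ℤ) ^ ((i : ℕ) + 1) * (c * (p1 i - p2 i) + p3 i) =
                c * ((-1 : ℤ) ^ ((i : ℕ) + 1) * p1 i) - c * ((-1 : ℤ) ^ ((i : ℕ) + 1) * p2 i) +
                (-1 : ℤ) ^ ((i : ℕ) + 1) * p3 i := fun i => by ring
            rw [Finset.sum_congr rfl (fun i _ => e i), Finset.sum_add_distrib,
              Finset.sum_sub_distrib, ← Finset.mul_sum, ← Finset.mul_sum, h1' ho he, h2' ho he,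
              h3' ho he]
            ring }
    have hle : affineSpan ℤ (radonVecs d m GenPos) ≤ A := by
      rw [affineSpan_le]
      rintro w ⟨S, hS, hG, hw⟩
      have h := relations S hS hm hG
      refine ⟨?_, fun ho he => ?_⟩
      · rw [← h.1]
        exact Finset.sum_congr rfl (fun i _ => hw i)
      · rw [← h.2 ho he]
        exact Finset.sum_congr rfl (fun i _ => by rw [hw i])
    exact hle hv
  · rintro ⟨h1, h2⟩
    obtain ⟨-, S, -, -, hS, -, hG, -, -⟩ := realize (k := 0) hd hm le_rfl (by omega : 1 ≤ d) (by omega)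
    set p : Fin (m / 2) → ℤ := fun i => (radonCount S (i + 1) : ℤ) with hp
    have hpR : p ∈ radonVecs d m GenPos := ⟨S, hS, hG, fun _ => rfl⟩
    have hrel := relations S hS hm hG
    have hpA : p ∈ affineSpan ℤ (radonVecs d m GenPos) := mem_affineSpan ℤ hpR
    rw [← AffineSubspace.vsub_right_mem_direction_iff_mem hpA, direction_affineSpan]
    have hM : ∀ a k, 1 ≤ a → a ≤ d → k + d + 1 ≤ m →
        uu m (a + k) - uu m (d + 1 - a + k) ∈ vectorSpan ℤ (radonVecs d m GenPos) :=
      fun a k ha had hk => wall_mem hd hm ha had hk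
    have hsum : ∑ i, (v -ᵥ p) i = 0 := by
      show ∑ i, (v i - p i) = 0
      rw [Finset.sum_sub_distrib, h1, hrel.1, sub_self]
    by_cases hc : Odd d ∧ Even m
    · apply mem_par _ (fun s hs1 hs => conn_par hd hm hc.1 hc.2 _ hM _ s rfl hs1 hs) _ hsum
      show ∑ i : Fin (m / 2), (-1 : ℤ) ^ ((i : ℕ) + 1) * (v i - p i) = 0
      have e : ∀ i : Fin (m / 2), (-1 : ℤ) ^ ((i : ℕ) + 1) * (v i - p i) =
          (-1 : ℤ) ^ ((i : ℕ) + 1) * v i - (-1 : ℤ) ^ ((i : ℕ) + 1) * p i := fun i => by ring
      rw [Finset.sum_congr rfl (fun i _ => e i), Finset.sum_sub_distrib, h2 hc.1 hc.2,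
        hrel.2 hc.1 hc.2, sub_self]
    · exact mem_full _ (fun s hs1 hs => conn_full hd hm hc _ hM _ s rfl hs1 hs) _ hsum

/-- Without general position every unit vector is a difference of two Radon vectors. -/
theorem unit_steps (hd : 2 ≤ d) (hm : 3 ≤ m) (i : Fin (m / 2)) :
    ∃ v ∈ radonVecs d m (fun _ => True), v + Pi.single i 1 ∈ radonVecs d m (fun _ => True) := by
  classical
  have hi := i.2
  rcases Nat.lt_or_ge m (d + 2) with h | h
  · -- few points
    have hinj0 := simp0_inj (m := m) (d := d) (by omega)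
    have hp : 1 ≤ (i : ℕ) + 1 := by omega
    have hn : 2 ≤ m - ((i : ℕ) + 1) := by omega
    have hpn : (i : ℕ) + 1 + (m - ((i : ℕ) + 1)) = m := by omega
    have hinj1 := circ_inj (m := m) (d := d) hp hn hpn.le (by omega)
    refine ⟨0, ⟨univ.map ⟨simp0 m d, hinj0⟩, by simp, trivial, ?_⟩,
      ⟨univ.map ⟨circ m d ((i : ℕ) + 1) (m - ((i : ℕ) + 1)), hinj1⟩, by simp, trivial, ?_⟩⟩
    · intro j
      rw [radonCount_eq_card hinj0 ⟨0, by omega⟩, Pi.zero_apply]
      have : TT (hom (simp0 m d)) ⟨0, by omega⟩ = ∅ := by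
        rw [Finset.eq_empty_iff_forall_notMem]
        intro A hA
        obtain ⟨l, hl0, hl, -⟩ := (mem_TT.1 hA).2
        exact hl0 (simp0_dep (by omega) ((hom_sum_iff l).1 hl))
      rw [this]
      simp
    · intro j
      have hj := j.2
      have hlam : ∀ t : Fin m, lam m ((i : ℕ) + 1) (m - ((i : ℕ) + 1)) t =
          if (t : ℕ) < (i : ℕ) + 1 then (((m - ((i : ℕ) + 1) : ℕ) : ℝ) / (((i : ℕ) + 1 : ℕ) : ℝ))
          else -1 := by
        intro t
        have ht := t.2
        unfold lam
        by_cases h1 : (t : ℕ) < (i : ℕ) + 1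
        · rw [if_pos h1, if_pos h1]
        · rw [if_neg h1, if_neg h1, if_pos (by omega)]
      set P : Finset (Fin m) := univ.filter (fun t : Fin m => (t : ℕ) < (i : ℕ) + 1) with hP
      have hPc : P.card = (i : ℕ) + 1 := by
        have e : P.map Fin.valEmbedding = range ((i : ℕ) + 1) := by
          ext t
          rw [Finset.mem_map, Finset.mem_range]
          constructor
          · rintro ⟨t', ht', rfl⟩
            exact (Finset.mem_filter.1 ht').2
          · intro ht
            exact ⟨⟨t, by omega⟩, Finset.mem_filter.2 ⟨Finset.mem_univ _, ht⟩, rfl⟩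
        rw [← Finset.card_map Fin.valEmbedding, e, Finset.card_range]
      have hpos : 0 < (((m - ((i : ℕ) + 1) : ℕ) : ℝ) / (((i : ℕ) + 1 : ℕ) : ℝ)) := by
        have h1 : (0 : ℝ) < ((m - ((i : ℕ) + 1) : ℕ) : ℝ) := by
          have : 0 < m - ((i : ℕ) + 1) := by omega
          exact_mod_cast this
        have h2 : (0 : ℝ) < (((i : ℕ) + 1 : ℕ) : ℝ) := by
          have : 0 < (i : ℕ) + 1 := by omega
          exact_mod_cast this
        exact div_pos h1 h2
      have hdep := fun l => circ_dep (m := m) (d := d) hp (by omega : 1 ≤ m - ((i : ℕ) + 1)) hpn.le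
        (by omega) (by omega) l
      have hT : TT (hom (circ m d ((i : ℕ) + 1) (m - ((i : ℕ) + 1)))) ⟨0, by omega⟩ = {P} := by
        ext A
        rw [mem_TT, Finset.mem_singleton]
        constructor
        · rintro ⟨h0A, l, hl0, hl, h1, h2⟩
          obtain ⟨c, hc⟩ := (hdep l).1 ((hom_sum_iff l).1 hl)
          have hc0 : c ≠ 0 := by
            intro h0
            apply hl0
            funext t
            rw [hc t, h0, zero_mul]; rfl
          have hcpos : 0 < c := by
            have h3 := h1 _ h0A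
            rw [hc, hlam, if_pos (by show 0 < _; omega)] at h3
            rcases lt_or_gt_of_ne hc0 with h4 | h4
            · have := mul_neg_of_neg_of_pos h4 hpos
              linarith
            · exact h4
          ext t
          rw [hP, Finset.mem_filter]
          simp only [Finset.mem_univ, true_and]
          constructor
          · intro ht
            by_contra hcon
            have h3 := h1 t ht
            rw [hc, hlam, if_neg hcon] at h3
            linarith
          · intro ht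
            by_contra hcon
            have h3 := h2 t hcon
            rw [hc, hlam, if_pos ht] at h3
            have := mul_pos hcpos hpos
            linarith
        · rintro rfl
          refine ⟨Finset.mem_filter.2 ⟨Finset.mem_univ _, by show 0 < _; omega⟩,
            fun t => lam m ((i : ℕ) + 1) (m - ((i : ℕ) + 1)) t, ?_, ?_, ?_, ?_⟩
          · intro h0
            have h3 := congrFun h0 ⟨0, by omega⟩
            simp only [Pi.zero_apply] at h3
            have h4 := hlam ⟨0, by omega⟩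
            rw [if_pos (by show 0 < _; omega)] at h4
            have h5 : lam m ((i : ℕ) + 1) (m - ((i : ℕ) + 1)) 0 = 0 := h3
            have h6 : lam m ((i : ℕ) + 1) (m - ((i : ℕ) + 1)) 0 = _ := h4
            rw [h5] at h6
            rw [← h6] at hpos
            exact lt_irrefl _ hpos
          · rw [hom_sum_iff]
            exact (hdep _).2 ⟨1, fun t => by rw [one_mul]⟩
          · intro t ht
            rw [hP, Finset.mem_filter] at ht
            simp only
            rw [hlam, if_pos ht.2]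
            exact hpos.le
          · intro t ht
            rw [hP, Finset.mem_filter] at ht
            simp only
            rw [hlam, if_neg (fun h' => ht ⟨Finset.mem_univ _, h'⟩)]
            norm_num
      rw [radonCount_eq_card hinj1 ⟨0, by omega⟩, hT, zero_add, Finset.filter_singleton,
        Finset.card_compl, Fintype.card_fin, hPc]
      by_cases hij : j = i
      · rw [hij, Pi.single_eq_same, if_pos (Or.inl rfl)]
        simp
      · have hij' : (j : ℕ) ≠ i := fun h' => hij (Fin.ext h')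
        rw [Pi.single_eq_of_ne hij, if_neg (by omega)]
        simp
  · -- many points
    obtain ⟨Sz, Sx, Sy, hz, hx, -, -, -, hrad⟩ := realize (a := min ((i : ℕ) + 1) d)
      (k := (i : ℕ) + 1 - min ((i : ℕ) + 1) d) hd h (by omega) (by omega) (by omega)
    refine ⟨fun j => (radonCount Sx (j + 1) : ℤ), ⟨Sx, hx, trivial, fun _ => rfl⟩,
      ⟨Sz, hz, trivial, ?_⟩⟩
    intro j
    have hj := j.2
    have e : min ((i : ℕ) + 1) d + ((i : ℕ) + 1 - min ((i : ℕ) + 1) d) = (i : ℕ) + 1 := by omega
    rw [(hrad _).1, e, Pi.add_apply]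
    push_cast
    congr 1
    by_cases hij : j = i
    · rw [hij, Pi.single_eq_same, if_pos (Or.inl rfl)]
    · have hij' : (j : ℕ) ≠ i := fun h' => hij (Fin.ext h')
      rw [Pi.single_eq_of_ne hij, if_neg (by omega)]

theorem all_lattice (hd : 2 ≤ d) (hm : 3 ≤ m) :
    affineSpan ℤ (radonVecs d m (fun _ => True)) = ⊤ := by
  have hdir : vectorSpan ℤ (radonVecs d m (fun _ => True)) = ⊤ := by
    rw [eq_top_iff]
    intro u _
    rw [sum_single u]
    apply Submodule.sum_mem
    intro i _
    apply Submodule.smul_mem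
    obtain ⟨v, hv, hv'⟩ := unit_steps hd hm i
    have h1 := vsub_mem_vectorSpan ℤ hv' hv
    rw [uu_single]
    have e : (v + Pi.single i 1) -ᵥ v = (Pi.single i 1 : Fin (m / 2) → ℤ) := by
      rw [vsub_eq_sub, add_sub_cancel_left]
    rwa [e] at h1
  have hne : (radonVecs d m (fun _ => True)).Nonempty := by
    obtain ⟨v, hv, -⟩ := unit_steps hd hm ⟨0, by omega⟩
    exact ⟨v, hv⟩
  rw [← AffineSubspace.direction_eq_top_iff_of_nonempty ((affineSpan_nonempty ℤ).2 hne),
    direction_affineSpan]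
  exact hdir

end

end Pool.Agent.H77.RL
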