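import Mathlib

namespace Pool.Agent.H77.RL

open Finset

section

variable {ι : Type*} [Fintype ι] [DecidableEq ι] {E : Type*} [AddCommGroup E] [Module ℝ E]

/-- `A` is the nonnegative part of a nonzero linear dependency of the vectors `V i`. -/
def Rad (V : ι → E) (A : Finset ι) : Prop :=
  ∃ l : ι → ℝ, l ≠ 0 ∧ ∑ i, l i • V i = 0 ∧ (∀ i ∈ A, 0 ≤ l i) ∧ (∀ i ∉ A, l i ≤ 0)

/-- The vectors with index in `X` are linearly independent. -/
def Ind (V : ι → E) (X : Finset ι) : Prop :=
  ∀ l : ι → ℝ, (∀ i ∉ X, l i = 0) → ∑ i, l i • V i = 0 → l = 0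

lemma Ind.mono {V : ι → E} {X Y : Finset ι} (h : Ind V Y) (hXY : X ⊆ Y) : Ind V X :=
  fun l hl hs => h l (fun i hi => hl i (fun hX => hi (hXY hX))) hs

lemma Ind.linInd {V : ι → E} {X : Finset ι} (h : Ind V X) :
    LinearIndependent ℝ (fun i : X => V i) := by
  rw [Fintype.linearIndependent_iff]
  intro g hg i
  have := h (fun j => if hj : j ∈ X then g ⟨j, hj⟩ else 0) (fun j hj => by simp [hj]) ?_
  · have h2 := congrFun this i
    simpa using h2
  · rw [← hg, ← Finset.sum_subset (Finset.subset_univ X)]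
    · rw [← Finset.sum_coe_sort X]
      apply Finset.sum_congr rfl
      intro j _
      simp
    · intro j _ hj
      simp [hj]

lemma ind_of_linInd {V : ι → E} {X : Finset ι} (h : LinearIndependent ℝ (fun i : X => V i)) :
    Ind V X := by
  intro l hl hs
  rw [Fintype.linearIndependent_iff] at h
  have := h (fun i => l i) ?_
  · funext i
    by_cases hi : i ∈ X
    · exact this ⟨i, hi⟩
    · exact hl i hi
  · rw [← hs, ← Finset.sum_subset (Finset.subset_univ X)]
    · rw [← Finset.sum_coe_sort X]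
    · intro j _ hj
      simp [hl j hj]

variable [FiniteDimensional ℝ E]

/-- coordinates with respect to a basis -/
lemma Ind.coords {V : ι → E} {C : Finset ι} (h : Ind V C) (hc : C.card = Module.finrank ℝ E) :
    ∃ g : ι → (E →ₗ[ℝ] ℝ), (∀ j ∈ C, g j (V j) = 1) ∧ (∀ j ∈ C, ∀ i ∈ C, i ≠ j → g j (V i) = 0) ∧
      (∀ j ∉ C, g j = 0) ∧ ∀ u, ∑ j, g j u • V j = u := by
  classical
  let b := basisOfLinearIndependentOfCardEqFinrank' _ h.linInd (by simpa using hc)
  have hb : ∀ i : C, b i = V i := fun i => by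
    simp [b]
  refine ⟨fun j => if hj : j ∈ C then b.coord ⟨j, hj⟩ else 0, ?_, ?_, ?_, ?_⟩
  · intro j hj
    simp only [hj, dif_pos]
    rw [← hb ⟨j, hj⟩]
    simp
  · intro j hj i hi hij
    simp only [hj, dif_pos]
    rw [← hb ⟨i, hi⟩]
    rw [Module.Basis.coord_apply, Module.Basis.repr_self, Finsupp.single_apply, if_neg]
    intro hh
    exact hij (Subtype.ext_iff.1 hh)
  · intro j hj
    simp [hj]
  · intro u
    rw [← Finset.sum_subset (Finset.subset_univ C)]
    · rw [← Finset.sum_coe_sort C]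
      conv_rhs => rw [← b.sum_repr u]
      apply Finset.sum_congr rfl
      intro j _
      simp [hb]
    · intro j _ hj
      simp [hj]

lemma Ind.eq_zero_of_vanish {V : ι → E} {C : Finset ι} (h : Ind V C)
    (hc : C.card = Module.finrank ℝ E) {g : E →ₗ[ℝ] ℝ} (hg : ∀ j ∈ C, g (V j) = 0) : g = 0 := by
  obtain ⟨c, -, -, hc3, hc4⟩ := h.coords hc
  ext u
  rw [← hc4 u, map_sum]
  simp only [map_smul, smul_eq_mul, LinearMap.zero_apply]
  apply Finset.sum_eq_zero
  intro j _
  by_cases hj : j ∈ C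
  · rw [hg j hj, mul_zero]
  · rw [hc3 j hj]; simp

/-- a nonzero functional vanishing on fewer than `dim E` vectors -/
lemma exists_vanish (V : ι → E) {D : Finset ι} (hD : D.card < Module.finrank ℝ E) :
    ∃ g : E →ₗ[ℝ] ℝ, g ≠ 0 ∧ ∀ j ∈ D, g (V j) = 0 := by
  classical
  have h1 : Submodule.span ℝ ((D.image V : Finset E) : Set E) < ⊤ := by
    rw [lt_top_iff_ne_top]
    intro hcon
    have h2 := finrank_span_finset_le_card (R := ℝ) (D.image V)
    rw [Set.finrank, hcon, finrank_top] at h2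
    have h3 := Finset.card_image_le (s := D) (f := V)
    omega
  obtain ⟨g, hg0, hg⟩ := Submodule.exists_le_ker_of_lt_top _ h1
  refine ⟨g, hg0, fun j hj => ?_⟩
  have : V j ∈ LinearMap.ker g := hg (Submodule.subset_span (by
    rw [Finset.coe_image]; exact ⟨j, hj, rfl⟩))
  simpa using this

end

end Pool.Agent.H77.RL
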