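import Pool.Agent.H54.Radon.SuppBase
import Pool.Agent.H77.RL.Alt
import Pool.Agent.H77.RL.Count

namespace Pool.Agent.H77.RL

open Finset Pool.Agent.H54.Radon

section

variable {m d : ℕ} {x : Fin m → Fin d → ℝ}

/-- homogeneous coordinates -/
def hom (x : Fin m → Fin d → ℝ) (i : Fin m) : Fin (d + 1) → ℝ := Fin.cons 1 (x i)

lemma hom_sum_iff (l : Fin m → ℝ) :
    ∑ i, l i • hom x i = 0 ↔ IsDep x l := by
  constructor
  · intro h
    constructor
    · have := congrFun h 0
      simpa [hom, Finset.sum_apply] using this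
    · funext j
      have := congrFun h j.succ
      simpa [hom, Finset.sum_apply] using this
  · rintro ⟨h1, h2⟩
    funext j
    refine Fin.cases ?_ (fun j => ?_) j
    · simpa [hom, Finset.sum_apply] using h1
    · have := congrFun h2 j
      simpa [hom, Finset.sum_apply] using this

lemma rad_hom_iff (A : Finset (Fin m)) : Rad (hom x) A ↔ RadA x A := by
  constructor
  · rintro ⟨l, hl0, hl, h1, h2⟩
    exact ⟨l, (hom_sum_iff l).1 hl, hl0, h1, h2⟩
  · rintro ⟨l, hl, hl0, h1, h2⟩
    exact ⟨l, hl0, (hom_sum_iff l).2 hl, h1, h2⟩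

lemma not_rad_univ : ¬ Rad (hom x) univ := by
  rintro ⟨l, hl0, hl, h1, -⟩
  apply hl0
  have h3 := ((hom_sum_iff l).1 hl).1
  rw [Finset.sum_eq_zero_iff_of_nonneg (fun i hi => h1 i hi)] at h3
  funext i
  exact h3 i (Finset.mem_univ _)

lemma radon_set (hx : Function.Injective x) (s : ℕ) :
    {P : Sym2 (Finset (Fin d → ℝ)) | ∃ A B, P = s(A, B) ∧
      IsRadon (univ.map ⟨x, hx⟩) A B ∧ A.card = s} =
      (fun A : Finset (Fin m) => s(A.map ⟨x, hx⟩, Aᶜ.map ⟨x, hx⟩)) ''
        {A : Finset (Fin m) | A.card = s ∧ Rad (hom x) A} := by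
  classical
  set f : Fin m ↪ (Fin d → ℝ) := ⟨x, hx⟩ with hf
  ext P
  constructor
  · rintro ⟨A, B, rfl, ⟨hA, hB, hdisj, hunion, hne⟩, hcard⟩
    have hAsub : A ⊆ univ.map f := by
      intro z hz
      have : z ∈ ((univ.map f : Finset _) : Set (Fin d → ℝ)) := by
        rw [← hunion]; exact Or.inl hz
      exact this
    obtain ⟨A', -, rfl⟩ := (Finset.subset_map_iff).1 hAsub
    have hBeq : B = (A'ᶜ).map f := by
      ext z
      have hz : z ∈ ((univ.map f : Finset _) : Set (Fin d → ℝ)) ↔
          z ∈ ((A'.map f : Finset _) : Set (Fin d → ℝ)) ∪ B := by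
        rw [hunion]
      rw [Set.mem_union, Finset.mem_coe, Finset.mem_coe, Finset.mem_coe] at hz
      constructor
      · intro hzB
        have h1 := hz.2 (Or.inr hzB)
        rw [Finset.mem_map] at h1
        obtain ⟨i, -, rfl⟩ := h1
        rw [Finset.mem_map' f, Finset.mem_compl]
        intro hi
        exact Finset.disjoint_left.1 hdisj (by rw [Finset.mem_map' f]; exact hi) hzB
      · intro hz2
        rw [Finset.mem_map] at hz2
        obtain ⟨i, hi, rfl⟩ := hz2
        rcases hz.1 (by simp) with h | h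
        · rw [Finset.mem_map' f] at h
          exact absurd h (Finset.mem_compl.1 hi)
        · exact h
    subst hBeq
    rw [Finset.card_map] at hcard
    exact ⟨A', ⟨hcard, (rad_hom_iff A').2 (hull_to_dep hx A' hne)⟩, rfl⟩
  · rintro ⟨A, ⟨hc, hA⟩, rfl⟩
    obtain ⟨l, hl⟩ := (rad_hom_iff A).1 hA
    have hr := comp_to_hull hx A l hl
    refine ⟨_, _, rfl, ⟨by simpa using hr.1, by simpa using hr.2.1, ?_, ?_, hr.2.2⟩, ?_⟩
    · rw [Finset.disjoint_map]; exact disjoint_compl_right
    · rw [← Finset.coe_union, ← Finset.map_union, Finset.union_compl]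
    · rw [Finset.card_map]; exact hc

open Classical in
/-- the sets of Radon type which contain `i0` -/
noncomputable def TT {ι E : Type*} [Fintype ι] [AddCommGroup E] [Module ℝ E]
    (V : ι → E) (i0 : ι) : Finset (Finset ι) :=
  univ.filter (fun A => i0 ∈ A ∧ Rad V A)

lemma mem_TT {ι E : Type*} [Fintype ι] [AddCommGroup E] [Module ℝ E]
    {V : ι → E} {i0 : ι} {A : Finset ι} : A ∈ TT V i0 ↔ i0 ∈ A ∧ Rad V A := by
  classical
  simp [TT]

lemma radonCount_eq_card (hx : Function.Injective x) (i0 : Fin m) (s : ℕ) :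
    radonCount (univ.map ⟨x, hx⟩) s =
      ((TT (hom x) i0).filter (fun A => A.card = s ∨ Aᶜ.card = s)).card := by
  classical
  rw [radonCount, radon_set hx s]
  set f : Fin m ↪ (Fin d → ℝ) := ⟨x, hx⟩ with hf
  have himg : (fun A : Finset (Fin m) => s(A.map f, Aᶜ.map f)) ''
        {A : Finset (Fin m) | A.card = s ∧ Rad (hom x) A} =
      (((TT (hom x) i0).filter (fun A => A.card = s ∨ Aᶜ.card = s)).image
        (fun A : Finset (Fin m) => s(A.map f, Aᶜ.map f)) : Finset _) := by
    ext P
    rw [Finset.coe_image, Set.mem_image, Set.mem_image]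
    constructor
    · rintro ⟨A, ⟨hc, hA⟩, rfl⟩
      by_cases hi : i0 ∈ A
      · refine ⟨A, ?_, rfl⟩
        rw [Finset.mem_coe, Finset.mem_filter, mem_TT]
        exact ⟨⟨hi, hA⟩, Or.inl hc⟩
      · refine ⟨Aᶜ, ?_, ?_⟩
        · rw [Finset.mem_coe, Finset.mem_filter, mem_TT, compl_compl]
          exact ⟨⟨Finset.mem_compl.2 hi, hA.compl⟩, Or.inr hc⟩
        · show s(Aᶜ.map f, Aᶜᶜ.map f) = s(A.map f, Aᶜ.map f)
          rw [compl_compl]
          exact Sym2.eq_swap
    · rintro ⟨A, hA, rfl⟩
      rw [Finset.mem_coe, Finset.mem_filter, mem_TT] at hA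
      rcases hA.2 with hc | hc
      · exact ⟨A, ⟨hc, hA.1.2⟩, rfl⟩
      · refine ⟨Aᶜ, ⟨hc, hA.1.2.compl⟩, ?_⟩
        show s(Aᶜ.map f, Aᶜᶜ.map f) = s(A.map f, Aᶜ.map f)
        rw [compl_compl]
        exact Sym2.eq_swap
  rw [himg, Set.ncard_coe_finset, Finset.card_image_of_injOn]
  intro A hA A' hA' heq
  rw [Finset.mem_coe, Finset.mem_filter, mem_TT] at hA hA'
  have heq' : s(A.map f, Aᶜ.map f) = s(A'.map f, A'ᶜ.map f) := heq
  rw [Sym2.eq_iff] at heq'
  rcases heq' with ⟨h, -⟩ | ⟨h, -⟩
  · exact Finset.map_injective f h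
  · exfalso
    have := Finset.map_injective f h
    rw [this] at hA
    exact (Finset.mem_compl.1 hA.1.1) hA'.1.1

/-- the number of Radon sets is additive -/
lemma sum_radonCount (hx : Function.Injective x) (i0 : Fin m) (w : ℕ → ℤ)
    (hw : ∀ a, a ≤ m → w (m - a) = w a) :
    ∑ i : Fin (m / 2), w (i + 1) * (radonCount (univ.map ⟨x, hx⟩) (i + 1) : ℤ) =
      ∑ A ∈ TT (hom x) i0, w A.card := by
  classical
  have h1 : ∀ i : Fin (m / 2), w (i + 1) * (radonCount (univ.map ⟨x, hx⟩) (i + 1) : ℤ) =
      ∑ A ∈ TT (hom x) i0, (if A.card = (i : ℕ) + 1 ∨ Aᶜ.card = (i : ℕ) + 1 then w (i + 1) else 0) := by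
    intro i
    rw [radonCount_eq_card hx i0, ← Finset.sum_filter, Finset.sum_const, nsmul_eq_mul, mul_comm]
  rw [Finset.sum_congr rfl (fun i _ => h1 i), Finset.sum_comm]
  apply Finset.sum_congr rfl
  intro A hA
  rw [mem_TT] at hA
  have ha1 : 1 ≤ A.card := Finset.card_pos.2 ⟨i0, hA.1⟩
  have ha2 : A.card < m := by
    have h2 : A.card ≤ m := by
      have := Finset.card_le_univ A
      rwa [Fintype.card_fin] at this
    rcases h2.lt_or_eq with h | h
    · exact h
    · exfalso
      have : A = univ := by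
        rw [← Finset.card_eq_iff_eq_univ, Fintype.card_fin]; exact h
      rw [this] at hA
      exact not_rad_univ hA.2
  have hac : Aᶜ.card = m - A.card := by rw [Finset.card_compl, Fintype.card_fin]
  have hmin : min A.card (m - A.card) - 1 < m / 2 := by omega
  rw [Finset.sum_eq_single ⟨min A.card (m - A.card) - 1, hmin⟩]
  · have e : min A.card (m - A.card) - 1 + 1 = min A.card (m - A.card) := by omega
    simp only [e]
    rw [if_pos]
    · rcases le_total A.card (m - A.card) with h | h
      · rw [min_eq_left h]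
      · rw [min_eq_right h]
        exact hw _ ha2.le
    · rw [hac]
      rcases le_total A.card (m - A.card) with h | h
      · rw [min_eq_left h]; exact Or.inl rfl
      · rw [min_eq_right h]; exact Or.inr rfl
  · intro i _ hi
    rw [if_neg]
    rintro (h | h)
    · apply hi
      apply Fin.ext
      show (i : ℕ) = _
      have := i.2
      simp only
      omega
    · apply hi
      apply Fin.ext
      show (i : ℕ) = _
      have := i.2
      rw [hac] at h
      simp only
      omega
  · intro h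
    exact absurd (Finset.mem_univ _) h

lemma genPos_ind (hx : Function.Injective x) (hG : GenPos (univ.map ⟨x, hx⟩))
    (C : Finset (Fin m)) (hC : C.card = d + 1) : Ind (hom x) C := by
  classical
  set f : Fin m ↪ (Fin d → ℝ) := ⟨x, hx⟩ with hf
  intro l hlz hl
  rw [hom_sum_iff] at hl
  have hA := hG (C.map f) (Finset.map_subset_map.2 (Finset.subset_univ _))
    (by rw [Finset.card_map]; exact hC.le)
  have hA' : AffineIndependent ℝ (fun b : C => x b) := by
    have e : (fun b : C => x b) = (fun z : (C.map f : Finset _) => (z : Fin d → ℝ)) ∘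
        (fun b : C => ⟨f b, Finset.mem_map_of_mem f b.2⟩) := by
      funext b; rfl
    rw [e]
    have hinj : Function.Injective
        (fun b : C => (⟨f b, Finset.mem_map_of_mem f b.2⟩ : (C.map f : Finset _))) := by
      intro b b' h
      exact Subtype.ext (f.injective (Subtype.ext_iff.1 h))
    exact hA.comp_embedding ⟨_, hinj⟩
  rw [affineIndependent_iff] at hA'
  have h1 : ∑ b : C, l b = 0 := by
    rw [Finset.sum_coe_sort C l, Finset.sum_subset (Finset.subset_univ C) (fun k _ hk => hlz k hk)]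
    exact hl.1
  have h2 : ∑ b : C, l b • x b = 0 := by
    rw [Finset.sum_coe_sort C (fun k => l k • x k),
      Finset.sum_subset (Finset.subset_univ C) (fun k _ hk => by rw [hlz k hk, zero_smul])]
    exact hl.2
  have := hA' Finset.univ (fun b => l b) h1 h2
  funext k
  by_cases hk : k ∈ C
  · exact this ⟨k, hk⟩ (Finset.mem_univ _)
  · exact hlz k hk

lemma ind_genPos (hx : Function.Injective x) (hm : d + 1 ≤ m)
    (h : ∀ C : Finset (Fin m), C.card = d + 1 → Ind (hom x) C) :
    GenPos (univ.map ⟨x, hx⟩) := by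
  classical
  set f : Fin m ↪ (Fin d → ℝ) := ⟨x, hx⟩ with hf
  intro T hT hTc
  obtain ⟨B, -, rfl⟩ := (Finset.subset_map_iff).1 hT
  rw [Finset.card_map] at hTc
  obtain ⟨C, hBC, -, hCc⟩ := Finset.exists_subsuperset_card_eq (s := B) (t := univ)
    (n := d + 1) (Finset.subset_univ _) hTc (by rw [Finset.card_univ, Fintype.card_fin]; exact hm)
  have hB : Ind (hom x) B := (h C hCc).mono hBC
  have hA : AffineIndependent ℝ (fun b : B => x b) := by
    rw [affineIndependent_iff]
    intro s w hw1 hw2 e he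
    let l : Fin m → ℝ := fun i => if hi : i ∈ B then (if (⟨i, hi⟩ : B) ∈ s then w ⟨i, hi⟩ else 0) else 0
    have hl1 : ∑ i, l i = 0 := by
      rw [← Finset.sum_subset (Finset.subset_univ B) (fun i _ hi => by simp [l, hi])]
      rw [← Finset.sum_coe_sort B, ← hw1, ← Finset.sum_subset (Finset.subset_univ s)]
      · apply Finset.sum_congr rfl
        intro i hi
        simp [l, hi]
      · intro i _ hi
        simp [l, hi]
    have hl2 : ∑ i, l i • x i = 0 := by
      rw [← Finset.sum_subset (Finset.subset_univ B) (fun i _ hi => by simp [l, hi])]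
      rw [← Finset.sum_coe_sort B, ← hw2, ← Finset.sum_subset (Finset.subset_univ s)]
      · apply Finset.sum_congr rfl
        intro i hi
        simp [l, hi]
      · intro i _ hi
        simp [l, hi]
    have h0 := hB l (fun i hi => by simp [l, hi]) ((hom_sum_iff l).2 ⟨hl1, hl2⟩)
    have := congrFun h0 e
    simpa [l, he] using this
  have hbij : Function.Bijective
      (fun b : B => (⟨f b, Finset.mem_map_of_mem f b.2⟩ : (B.map f : Finset _))) := by
    constructor
    · intro b b' h
      exact Subtype.ext (f.injective (Subtype.ext_iff.1 h))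
    · rintro ⟨z, hz⟩
      obtain ⟨b, hb, rfl⟩ := Finset.mem_map.1 hz
      exact ⟨⟨b, hb⟩, rfl⟩
  have e1 : (fun b : B => x b) = (fun z : (B.map f : Finset _) => (z : Fin d → ℝ)) ∘
      (Equiv.ofBijective _ hbij) := by
    funext b; rfl
  rw [e1] at hA
  exact (affineIndependent_equiv _).1 hA

/-- an enumeration of a finite set -/
lemma exists_enum (S : Finset (Fin d → ℝ)) (hS : S.card = m) :
    ∃ (x : Fin m → Fin d → ℝ) (hx : Function.Injective x), S = univ.map ⟨x, hx⟩ := by
  classical
  let e : Fin m ≃ S := (S.equivFinOfCardEq hS).symm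
  have hinj : Function.Injective (fun i : Fin m => ((e i : S) : Fin d → ℝ)) :=
    fun i j h => e.injective (Subtype.ext h)
  refine ⟨fun i => ((e i : S) : Fin d → ℝ), hinj, ?_⟩
  ext z
  rw [Finset.mem_map]
  constructor
  · intro hz
    exact ⟨e.symm ⟨z, hz⟩, Finset.mem_univ _, by simp⟩
  · rintro ⟨i, -, rfl⟩
    exact (e i).2

lemma card_TT {ι E : Type*} [Fintype ι] [DecidableEq ι] [AddCommGroup E] [Module ℝ E]
    [FiniteDimensional ℝ E] (V : ι → E) (i0 : ι)
    (hV : ∀ C : Finset ι, C.card = Module.finrank ℝ E → Ind V C)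
    (hcard : Module.finrank ℝ E < Fintype.card ι) :
    (TT V i0).card =
      ∑ k ∈ Icc (Module.finrank ℝ E) (Fintype.card ι - 1), (Fintype.card ι - 1).choose k := by
  classical
  rw [← count_rad V i0 hV hcard]
  refine Finset.card_nbij' (fun A => A.erase i0) (fun A => insert i0 A) ?_ ?_ ?_ ?_
  · intro A hA
    have hA' := mem_TT.1 (Finset.mem_coe.1 hA)
    rw [Finset.mem_coe, Finset.mem_filter]
    refine ⟨Finset.mem_univ _, Finset.notMem_erase _ _, ?_⟩
    rw [Finset.insert_erase hA'.1]
    exact hA'.2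
  · intro A hA
    have hA' := (Finset.mem_filter.1 (Finset.mem_coe.1 hA)).2
    rw [Finset.mem_coe, mem_TT]
    exact ⟨Finset.mem_insert_self _ _, hA'.2⟩
  · intro A hA
    have hA' := mem_TT.1 (Finset.mem_coe.1 hA)
    exact Finset.insert_erase hA'.1
  · intro A hA
    have hA' := (Finset.mem_filter.1 (Finset.mem_coe.1 hA)).2
    exact Finset.erase_insert hA'.1

lemma alt_TT {ι E : Type*} [Fintype ι] [DecidableEq ι] [AddCommGroup E] [Module ℝ E]
    (V : ι → E) (i0 : ι) (hm : Even (Fintype.card ι)) (h : sgnSum V = 0) :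
    ∑ A ∈ TT V i0, (-1 : ℤ) ^ A.card = 0 := by
  classical
  have h1 : sgnSum V = ∑ A ∈ TT V i0, (-1 : ℤ) ^ A.card + ∑ A ∈ TT V i0, (-1 : ℤ) ^ A.card := by
    unfold sgnSum
    rw [← Finset.sum_filter_add_sum_filter_not (univ.filter (fun A : Finset ι => Rad V A))
      (fun A => i0 ∈ A)]
    congr 1
    · apply Finset.sum_congr _ (fun _ _ => rfl)
      ext A
      rw [Finset.mem_filter, Finset.mem_filter, mem_TT]
      simp only [Finset.mem_univ, true_and]
      exact and_comm
    · refine Finset.sum_nbij' (fun A => Aᶜ) (fun A => Aᶜ) ?_ ?_ ?_ ?_ ?_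
      · intro A hA
        rw [Finset.mem_filter, Finset.mem_filter] at hA
        rw [mem_TT]
        exact ⟨Finset.mem_compl.2 hA.2, hA.1.2.compl⟩
      · intro A hA
        rw [mem_TT] at hA
        rw [Finset.mem_filter, Finset.mem_filter]
        exact ⟨⟨Finset.mem_univ _, hA.2.compl⟩, by simpa using hA.1⟩
      · intro A _
        exact compl_compl A
      · intro A _
        exact compl_compl A
      · intro A _
        have h2 : (-1 : ℤ) ^ A.card * (-1 : ℤ) ^ Aᶜ.card = 1 := by
          rw [← pow_add, Finset.card_add_card_compl]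
          exact hm.neg_one_pow
        rcases neg_one_pow_eq_or ℤ A.card with h | h
        · rw [h] at h2 ⊢; linarith
        · rw [h] at h2 ⊢; linarith
  rw [h] at h1
  linarith

/-- The relations satisfied by the Radon vectors of points in general position. -/
theorem relations (S : Finset (Fin d → ℝ)) (hS : S.card = m) (hm : d + 2 ≤ m) (hG : GenPos S) :
    (∑ i : Fin (m / 2), (radonCount S (i + 1) : ℤ) = ∑ k ∈ Icc (d + 1) (m - 1), ((m - 1).choose k : ℤ)) ∧
    (Odd d → Even m → ∑ i : Fin (m / 2), (-1 : ℤ) ^ (i + 1 : ℕ) * (radonCount S (i + 1) : ℤ) = 0) := by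
  classical
  obtain ⟨x, hx, rfl⟩ := exists_enum S hS
  have hfr : Module.finrank ℝ (Fin (d + 1) → ℝ) = d + 1 := by simp
  have hV : ∀ C : Finset (Fin m), C.card = Module.finrank ℝ (Fin (d + 1) → ℝ) → Ind (hom x) C := by
    intro C hC
    rw [hfr] at hC
    exact genPos_ind hx hG C hC
  have hc : Module.finrank ℝ (Fin (d + 1) → ℝ) < Fintype.card (Fin m) := by
    rw [hfr, Fintype.card_fin]; omega
  let i0 : Fin m := ⟨0, by omega⟩
  constructor
  · have h1 := sum_radonCount hx i0 (fun _ => 1) (fun _ _ => rfl)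
    simp only [one_mul] at h1
    rw [h1, Finset.sum_const, card_TT (hom x) i0 hV hc, hfr, Fintype.card_fin]
    simp
  · intro hd hme
    have h1 := sum_radonCount hx i0 (fun a => (-1 : ℤ) ^ a) (fun a ha => by
      have h2 : (-1 : ℤ) ^ (m - a) * (-1 : ℤ) ^ a = 1 := by
        rw [← pow_add, Nat.sub_add_cancel ha]
        exact hme.neg_one_pow
      show (-1 : ℤ) ^ (m - a) = (-1 : ℤ) ^ a
      rcases neg_one_pow_eq_or ℤ a with h | h
      · rw [h] at h2 ⊢; linarith
      · rw [h] at h2 ⊢; linarith)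
    rw [h1]
    apply alt_TT (hom x) i0
    · rw [Fintype.card_fin]; exact hme
    · apply sgnSum_zero (hom x) _ _ hV hc
      · rw [hfr]; exact hd.add_one
      · rw [hfr]; omega

end

end Pool.Agent.H77.RL
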