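import Pool.Agent.H77.RL.Alt

namespace Pool.Agent.H77.RL

open Finset Filter Topology

lemma ev_pos {α b : ℝ} (h : 0 < α) : ∀ᶠ ε in 𝓝[>] (0 : ℝ), 0 < α + ε * b := by
  have hc : Tendsto (fun ε : ℝ => α + ε * b) (𝓝[>] 0) (𝓝 (α + 0 * b)) := by
    apply tendsto_nhdsWithin_of_tendsto_nhds
    exact (Continuous.tendsto (by fun_prop) 0)
  rw [zero_mul, add_zero] at hc
  exact hc.eventually (lt_mem_nhds h)

lemma ev_neg {α b : ℝ} (h : α < 0) : ∀ᶠ ε in 𝓝[>] (0 : ℝ), α + ε * b < 0 := by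
  filter_upwards [ev_pos (α := -α) (b := -b) (by linarith)] with ε hε
  linarith

lemma ev_ne {α b : ℝ} (h : b ≠ 0) : ∀ᶠ ε in 𝓝[>] (0 : ℝ), α + ε * b ≠ 0 := by
  rcases lt_trichotomy α 0 with hα | hα | hα
  · filter_upwards [ev_neg (b := b) hα] with ε hε
    exact hε.ne
  · filter_upwards [self_mem_nhdsWithin] with ε hε
    rw [hα, zero_add]
    exact mul_ne_zero (ne_of_gt hε) h
  · filter_upwards [ev_pos (b := b) hα] with ε hε
    exact hε.ne'

section

variable {ι : Type*} [Fintype ι] [DecidableEq ι] {E : Type*} [AddCommGroup E] [Module ℝ E]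
  [FiniteDimensional ℝ E]

/-- a point on exactly one wall, with points on both sides -/
theorem exists_xyz {V : ι → E} {i0 : ι} {D : Finset ι} {f : E →ₗ[ℝ] ℝ}
    (hV : ∀ C : Finset ι, C.card = Module.finrank ℝ E → i0 ∉ C → Ind V C)
    (hcard : Module.finrank ℝ E < Fintype.card ι)
    (hD : D.card + 1 = Module.finrank ℝ E) (hiD : i0 ∉ D) (hfD : ∀ j ∈ D, f (V j) = 0)
    (v : E) (hv : 0 < f v) (φ : E →ₗ[ℝ] ℝ) (β0 : ι → ℝ) (hβ0 : ∀ j ∈ D, β0 j ≠ 0)
    (hφ : 0 < φ (∑ j ∈ D, β0 j • V j)) :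
    ∃ (β : ι → ℝ) (x y z : E), z = ∑ j ∈ D, β j • V j ∧ (∀ j ∈ D, (β j < 0 ↔ β0 j < 0)) ∧
      0 < φ z ∧ 0 < φ x ∧ 0 < φ y ∧ 0 < f x ∧ f y < 0 ∧
      ∀ (D' : Finset ι) (g : E →ₗ[ℝ] ℝ), D'.card + 1 = Module.finrank ℝ E → i0 ∉ D' →
        D' ≠ D → g ≠ 0 → (∀ j ∈ D', g (V j) = 0) → 0 < g x * g z ∧ 0 < g y * g z := by
  classical
  have hex : ∀ D : Finset ι, ∃ g : E →ₗ[ℝ] ℝ, D.card + 1 = Module.finrank ℝ E →
      (g ≠ 0 ∧ ∀ j ∈ D, g (V j) = 0) := by
    intro D
    by_cases h : D.card + 1 = Module.finrank ℝ E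
    · obtain ⟨g, hg⟩ := exists_vanish V (D := D) (by omega)
      exact ⟨g, fun _ => hg⟩
    · exact ⟨0, fun h' => absurd h' h⟩
  choose w hw using hex
  set W : Finset (Finset ι) :=
    univ.filter (fun D' => D'.card + 1 = Module.finrank ℝ E ∧ i0 ∉ D' ∧ D' ≠ D) with hWd
  have hW : ∀ D', D' ∈ W ↔ D'.card + 1 = Module.finrank ℝ E ∧ i0 ∉ D' ∧ D' ≠ D := by
    intro D'; simp [hWd]
  have hw0 : ∀ D' ∈ W, w D' ≠ 0 := fun D' hD' => (hw D' ((hW D').1 hD').1).1
  have hw1 : ∀ D' ∈ W, ∀ j ∈ D', w D' (V j) = 0 := fun D' hD' => (hw D' ((hW D').1 hD').1).2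
  -- a generic direction in the span of `D`
  obtain ⟨γ, hγ⟩ := Module.Dual.exists_forall_ne_zero_of_forall_exists (K := ℝ) (M := ι → ℝ)
    (ι := {D' : Finset ι // D' ∈ W})
    (fun D' => (w D'.1).comp (∑ j ∈ D, (LinearMap.toSpanSingleton ℝ E (V j)).comp
      (LinearMap.proj j))) (by
      rintro ⟨D', hD'⟩
      obtain ⟨h1, h2, h3⟩ := (hW D').1 hD'
      obtain ⟨j, hj1, hj2⟩ : ∃ j ∈ D, j ∉ D' := by
        by_contra hcon
        push Not at hcon
        apply h3
        symm
        apply Finset.eq_of_subset_of_card_le hcon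
        omega
      refine ⟨Pi.single j 1, ?_⟩
      have hval : (∑ j ∈ D, (LinearMap.toSpanSingleton ℝ E (V j)).comp
          (LinearMap.proj (R := ℝ) (φ := fun _ : ι => ℝ) j)) (Pi.single j 1) = V j := by
        rw [LinearMap.sum_apply, Finset.sum_eq_single j]
        · simp
        · intro i _ hij
          simp [hij]
        · intro h; exact absurd hj1 h
      rw [LinearMap.comp_apply, hval]
      intro h0
      apply hw0 D' hD'
      have hc : (insert j D').card = Module.finrank ℝ E := by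
        rw [Finset.card_insert_of_notMem hj2, h1]
      apply (hV (insert j D') hc ?_).eq_zero_of_vanish hc
      · intro i hi
        rcases Finset.mem_insert.1 hi with rfl | hi
        · exact h0
        · exact hw1 D' hD' i hi
      · rw [Finset.mem_insert]; push Not
        exact ⟨fun h => hiD (h ▸ hj1), h2⟩)
  set q := ∑ j ∈ D, γ j • V j with hq
  have hwq : ∀ D' ∈ W, w D' q ≠ 0 := by
    intro D' hD'
    have h1 := hγ ⟨D', hD'⟩
    rw [LinearMap.comp_apply, LinearMap.sum_apply] at h1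
    simpa [hq] using h1
  set z0 := ∑ j ∈ D, β0 j • V j with hz0
  -- the first small number
  have E1 : ∀ᶠ ε in 𝓝[>] (0 : ℝ), ∀ j ∈ D, (β0 j + ε * γ j < 0 ↔ β0 j < 0) := by
    rw [Filter.eventually_all_finset]
    intro j hj
    rcases lt_or_gt_of_ne (hβ0 j hj) with h | h
    · filter_upwards [ev_neg (b := γ j) h] with ε hε
      exact ⟨fun _ => h, fun _ => hε⟩
    · filter_upwards [ev_pos (b := γ j) h] with ε hε
      constructor
      · intro h'; linarith
      · intro h'; linarith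
  have E2 : ∀ᶠ ε in 𝓝[>] (0 : ℝ), ∀ D' ∈ W, w D' z0 + ε * w D' q ≠ 0 := by
    rw [Filter.eventually_all_finset]
    intro D' hD'
    exact ev_ne (hwq D' hD')
  have E3 : ∀ᶠ ε in 𝓝[>] (0 : ℝ), 0 < φ z0 + ε * φ q := ev_pos hφ
  obtain ⟨ε, hε1, hε2, hε3⟩ := (E1.and (E2.and E3)).exists
  set z := z0 + ε • q with hz
  have hwz : ∀ D' ∈ W, w D' z ≠ 0 := by
    intro D' hD'
    rw [hz, map_add, map_smul, smul_eq_mul]
    exact hε2 D' hD'
  have hφz : 0 < φ z := by
    rw [hz, map_add, map_smul, smul_eq_mul]; exact hε3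
  have hfz : f z = 0 := by
    have h1 : ∀ c : ι → ℝ, f (∑ j ∈ D, c j • V j) = 0 := by
      intro c
      rw [map_sum]
      apply Finset.sum_eq_zero
      intro j hj
      rw [map_smul, hfD j hj, smul_zero]
    rw [hz, map_add, map_smul, hz0, hq, h1, h1, smul_zero, add_zero]
  -- the second small number
  have E4 : ∀ᶠ δ in 𝓝[>] (0 : ℝ), ∀ D' ∈ W,
      0 < w D' z * w D' z + δ * (w D' v * w D' z) ∧
      0 < w D' z * w D' z + δ * (-(w D' v * w D' z)) := by
    rw [Filter.eventually_all_finset]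
    intro D' hD'
    have hp : 0 < w D' z * w D' z := mul_self_pos.2 (hwz D' hD')
    exact (ev_pos hp).and (ev_pos hp)
  have E5 : ∀ᶠ δ in 𝓝[>] (0 : ℝ), 0 < φ z + δ * φ v ∧ 0 < φ z + δ * (-(φ v)) :=
    (ev_pos hφz).and (ev_pos hφz)
  obtain ⟨δ, hδ4, hδ5, hδ0⟩ := (E4.and (E5.and self_mem_nhdsWithin)).exists
  have hδpos : (0 : ℝ) < δ := hδ0
  refine ⟨fun j => β0 j + ε * γ j, z + δ • v, z - δ • v, z, ?_, hε1, hφz, ?_, ?_, ?_, ?_, ?_⟩
  · rw [hz, hz0, hq, Finset.smul_sum, ← Finset.sum_add_distrib]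
    apply Finset.sum_congr rfl
    intro j _
    rw [add_smul, mul_smul]
  · rw [map_add, map_smul, smul_eq_mul]; exact hδ5.1
  · rw [map_sub, map_smul, smul_eq_mul]; linarith [hδ5.2]
  · rw [map_add, map_smul, smul_eq_mul, hfz, zero_add]; exact mul_pos hδpos hv
  · rw [map_sub, map_smul, smul_eq_mul, hfz, zero_sub]
    have := mul_pos hδpos hv
    linarith
  · intro D' g h1 h2 h3 h4 h5
    have hD' : D' ∈ W := (hW D').2 ⟨h1, h2, h3⟩
    obtain ⟨c, hc0, rfl⟩ := wall_scale hV hcard h1 h2 (hw0 D' hD') (hw1 D' hD') h4 h5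
    obtain ⟨k1, k2⟩ := hδ4 D' hD'
    have hc2 : 0 < c ^ 2 := by positivity
    constructor
    · simp only [LinearMap.smul_apply, smul_eq_mul, map_add, map_smul]
      have e : (c * w D' z + δ * (c * w D' v)) * (c * w D' z) =
          c ^ 2 * (w D' z * w D' z + δ * (w D' v * w D' z)) := by ring
      rw [e]
      exact mul_pos hc2 k1
    · simp only [LinearMap.smul_apply, smul_eq_mul, map_sub, map_smul]
      have e : (c * w D' z - δ * (c * w D' v)) * (c * w D' z) =
          c ^ 2 * (w D' z * w D' z + δ * (-(w D' v * w D' z))) := by ring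
      rw [e]
      exact mul_pos hc2 k2

lemma rad_smul {V : ι → E} {c : ι → ℝ} (hc : ∀ i, 0 < c i) {A : Finset ι} :
    Rad (fun i => c i • V i) A ↔ Rad V A := by
  constructor
  · rintro ⟨l, hl0, hl, h1, h2⟩
    refine ⟨fun i => l i * c i, ?_, ?_, ?_, ?_⟩
    · intro h0
      apply hl0
      funext i
      have := congrFun h0 i
      simp only [Pi.zero_apply] at this ⊢
      rcases mul_eq_zero.1 this with h | h
      · exact h
      · exact absurd h (hc i).ne'
    · rw [← hl]
      apply Finset.sum_congr rfl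
      intro i _
      rw [mul_smul]
    · intro i hi; exact mul_nonneg (h1 i hi) (hc i).le
    · intro i hi; exact mul_nonpos_of_nonpos_of_nonneg (h2 i hi) (hc i).le
  · rintro ⟨l, hl0, hl, h1, h2⟩
    refine ⟨fun i => l i * (c i)⁻¹, ?_, ?_, ?_, ?_⟩
    · intro h0
      apply hl0
      funext i
      have := congrFun h0 i
      simp only [Pi.zero_apply] at this ⊢
      rcases mul_eq_zero.1 this with h | h
      · exact h
      · exact absurd h (inv_ne_zero (hc i).ne')
    · rw [← hl]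
      apply Finset.sum_congr rfl
      intro i _
      rw [smul_smul, mul_assoc, inv_mul_cancel₀ (hc i).ne', mul_one]
    · intro i hi; exact mul_nonneg (h1 i hi) (inv_nonneg.2 (hc i).le)
    · intro i hi; exact mul_nonpos_of_nonpos_of_nonneg (h2 i hi) (inv_nonneg.2 (hc i).le)

lemma ind_smul {V : ι → E} {c : ι → ℝ} (hc : ∀ i, 0 < c i) {A : Finset ι} (h : Ind V A) :
    Ind (fun i => c i • V i) A := by
  intro l hl hs
  have h0 := h (fun i => l i * c i) (fun i hi => by rw [hl i hi, zero_mul]) (by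
    rw [← hs]
    apply Finset.sum_congr rfl
    intro i _
    rw [mul_smul])
  funext i
  have := congrFun h0 i
  simp only [Pi.zero_apply] at this ⊢
  rcases mul_eq_zero.1 this with h | h
  · exact h
  · exact absurd h (hc i).ne'

/-- general position after inserting a point that is on no wall -/
lemma ind_of_walls {V : ι → E} {i0 : ι} {x : E}
    (hV : ∀ C : Finset ι, C.card = Module.finrank ℝ E → i0 ∉ C → Ind V C)
    (hcard : Module.finrank ℝ E < Fintype.card ι)
    (hx : ∀ (D' : Finset ι) (g : E →ₗ[ℝ] ℝ), D'.card + 1 = Module.finrank ℝ E → i0 ∉ D' →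
      g ≠ 0 → (∀ j ∈ D', g (V j) = 0) → g x ≠ 0) (C : Finset ι)
    (hC : C.card = Module.finrank ℝ E) : Ind (Function.update V i0 x) C := by
  classical
  by_cases hi : i0 ∈ C
  · intro l hl hs
    have hc : (C.erase i0).card + 1 = Module.finrank ℝ E := by
      rw [Finset.card_erase_of_mem hi]
      have := Finset.card_pos.2 ⟨i0, hi⟩
      omega
    obtain ⟨g, hg0, hg⟩ := exists_vanish V (D := C.erase i0) (by omega)
    have hgx := hx (C.erase i0) g hc (Finset.notMem_erase _ _) hg0 hg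
    have hl0 : l i0 = 0 := by
      rw [sum_update] at hs
      have h1 := congrArg g hs
      rw [map_add, map_smul, map_sum, map_zero, Finset.sum_eq_zero, add_zero, smul_eq_mul] at h1
      · rcases mul_eq_zero.1 h1 with h | h
        · exact h
        · exact absurd h hgx
      · intro i hi'
        rw [map_smul]
        by_cases hiC : i ∈ C
        · rw [hg i (Finset.mem_erase.2 ⟨Finset.ne_of_mem_erase hi', hiC⟩), smul_zero]
        · rw [hl i hiC, zero_smul]
    obtain ⟨C', hC1, hC2, hCc⟩ := Finset.exists_subsuperset_card_eq (s := C.erase i0)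
      (t := univ.erase i0) (n := Module.finrank ℝ E)
      (Finset.erase_subset_erase _ (Finset.subset_univ _)) (by omega)
      (by rw [Finset.card_erase_of_mem (Finset.mem_univ _), Finset.card_univ]; omega)
    have hI : Ind V (C.erase i0) :=
      (hV C' hCc (fun h => Finset.notMem_erase i0 univ (hC2 h))).mono hC1
    refine ((ind_update (Finset.notMem_erase i0 C)).2 hI) l ?_ hs
    intro i hi'
    by_cases hii : i = i0
    · rw [hii, hl0]
    · exact hl i (fun h => hi' (Finset.mem_erase.2 ⟨hii, h⟩))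
  · exact (ind_update hi).2 (hV C hC hi)

end

end Pool.Agent.H77.RL
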