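import Pool.Agent.H77.RL.Link
import Pool.Agent.H77.RL.Pts

namespace Pool.Agent.H77.RL

open Finset Polynomial Pool.Agent.H54.Radon

/-- a point on the moment curve -/
def mom (d : ℕ) (t : ℝ) : Fin (d + 1) → ℝ := fun k => t ^ (k : ℕ)

/-- the functional given by a polynomial -/
noncomputable def gp (d : ℕ) (p : ℝ[X]) : (Fin (d + 1) → ℝ) →ₗ[ℝ] ℝ :=
  ∑ k : Fin (d + 1), p.coeff k • LinearMap.proj k

lemma gp_mom {d : ℕ} {p : ℝ[X]} (hp : p.natDegree ≤ d) (t : ℝ) : gp d p (mom d t) = p.eval t := by
  rw [Polynomial.eval_eq_sum_range' (n := d + 1) (by omega), Finset.sum_range]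
  simp [gp, mom, LinearMap.sum_apply]

lemma mom_ind {ι : Type*} [Fintype ι] [DecidableEq ι] {d : ℕ} (t : ι → ℝ) {Z : Finset ι}
    (hZ : Z.card = d + 1) (ht : ∀ i ∈ Z, ∀ j ∈ Z, t i = t j → i = j) :
    Ind (fun i => mom d (t i)) Z := by
  intro l hl hs
  funext j
  by_cases hj : j ∈ Z
  · obtain ⟨p, hp⟩ : ∃ p : ℝ[X], p = ∏ i ∈ Z.erase j, (X - C (t i)) := ⟨_, rfl⟩
    have hdeg : p.natDegree ≤ d := by
      rw [hp, Polynomial.natDegree_prod_of_monic _ _ (fun i _ => monic_X_sub_C _)]
      simp only [natDegree_X_sub_C, Finset.sum_const, smul_eq_mul, mul_one]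
      rw [Finset.card_erase_of_mem hj, hZ]
      omega
    have h1 := congrArg (gp d p) hs
    rw [map_sum, map_zero, Finset.sum_eq_single j] at h1
    · rw [map_smul, gp_mom hdeg, smul_eq_mul] at h1
      rcases mul_eq_zero.1 h1 with h | h
      · exact h
      · exfalso
        rw [hp, Polynomial.eval_prod, Finset.prod_eq_zero_iff] at h
        obtain ⟨i, hi, h0⟩ := h
        rw [eval_sub, eval_X, eval_C, sub_eq_zero] at h0
        exact Finset.ne_of_mem_erase hi (ht j hj i (Finset.mem_of_mem_erase hi) h0).symm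
    · intro i _ hij
      rw [map_smul, gp_mom hdeg]
      by_cases hi : i ∈ Z
      · have : p.eval (t i) = 0 := by
          rw [hp, Polynomial.eval_prod, Finset.prod_eq_zero_iff]
          exact ⟨i, Finset.mem_erase.2 ⟨hij, hi⟩, by simp⟩
        rw [this, smul_zero]
      · rw [hl i hi, zero_smul]
    · intro h; exact absurd (Finset.mem_univ _) h
  · exact hl j hj

section

variable {m d : ℕ}

/-- affine points from vectors with positive first coordinate -/
lemma exists_affine (U : Fin m → Fin (d + 1) → ℝ) (hU : ∀ i, 0 < U i 0)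
    (hI : ∀ i j, i ≠ j → Ind U {i, j}) :
    ∃ (x : Fin m → Fin d → ℝ) (_ : Function.Injective x),
      hom x = fun i => (U i 0)⁻¹ • U i := by
  classical
  have hhom : hom (fun i (j : Fin d) => (U i 0)⁻¹ * U i j.succ) = fun i => (U i 0)⁻¹ • U i := by
    funext i k
    refine Fin.cases ?_ (fun k => ?_) k
    · simp [hom, (hU i).ne']
    · simp [hom]
  refine ⟨fun i j => (U i 0)⁻¹ * U i j.succ, ?_, hhom⟩
  intro i j hij
  by_contra hne
  have h1 : (U i 0)⁻¹ • U i = (U j 0)⁻¹ • U j := by
    have e1 := congrFun hhom i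
    have e2 := congrFun hhom j
    have e3 : hom (fun i (j : Fin d) => (U i 0)⁻¹ * U i j.succ) i =
        hom (fun i (j : Fin d) => (U i 0)⁻¹ * U i j.succ) j := congrArg (Fin.cons 1) hij
    exact e1.symm.trans (e3.trans e2)
  have h2 := hI i j hne (fun k => if k = i then (U i 0)⁻¹ else if k = j then -(U j 0)⁻¹ else 0)
    (by
      intro k hk
      rw [Finset.mem_insert, Finset.mem_singleton] at hk
      push Not at hk
      simp [hk.1, hk.2])
    (by
      rw [← Finset.sum_subset (Finset.subset_univ {i, j})]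
      · rw [Finset.sum_pair hne, if_pos rfl, if_neg (Ne.symm hne), if_pos rfl, h1, neg_smul,
          add_neg_cancel]
      · intro k _ hk
        rw [Finset.mem_insert, Finset.mem_singleton] at hk
        push Not at hk
        rw [if_neg hk.1, if_neg hk.2, zero_smul])
  have h3 := congrFun h2 i
  simp only [if_true, Pi.zero_apply] at h3
  exact (inv_ne_zero (hU i).ne') h3

lemma TT_affine {x : Fin m → Fin d → ℝ} {U : Fin m → Fin (d + 1) → ℝ} (hU : ∀ i, 0 < U i 0)
    (hx : hom x = fun i => (U i 0)⁻¹ • U i) (i0 : Fin m) : TT (hom x) i0 = TT U i0 := by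
  ext A
  rw [mem_TT, mem_TT, hx, rad_smul (fun i => inv_pos.2 (hU i))]

lemma filter_erase_card {α : Type*} [DecidableEq α] {T T' : Finset α} {B : α} (hB : B ∈ T)
    (hT : T' = T.erase B) (p : α → Prop) [DecidablePred p] :
    (T.filter p).card = (T'.filter p).card + (if p B then 1 else 0) := by
  have e : T = insert B T' := by rw [hT, Finset.insert_erase hB]
  have hnot : B ∉ T' := by rw [hT]; exact Finset.notMem_erase _ _
  rw [e, Finset.filter_insert]
  split_ifs with h
  · rw [Finset.card_insert_of_notMem]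
    intro h'
    exact hnot (Finset.mem_filter.1 h').1
  · rfl

/-- All types of walls occur. -/
theorem realize {a k : ℕ} (hd : 2 ≤ d) (hm : d + 2 ≤ m) (ha : 1 ≤ a) (had : a ≤ d)
    (hk : k + d + 1 ≤ m) :
    ∃ Sz Sx Sy : Finset (Fin d → ℝ), Sz.card = m ∧ Sx.card = m ∧ Sy.card = m ∧
      GenPos Sx ∧ GenPos Sy ∧ ∀ s, radonCount Sz s =
        radonCount Sx s + (if a + k = s ∨ m - (a + k) = s then 1 else 0) ∧
        radonCount Sz s = radonCount Sy s +
          (if m - (d + 1 - a + k) = s ∨ d + 1 - a + k = s then 1 else 0) := by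
  classical
  have hfr : Module.finrank ℝ (Fin (d + 1) → ℝ) = d + 1 := by simp
  let i0 : Fin m := ⟨0, by omega⟩
  let t : Fin m → ℝ := fun i => if (i : ℕ) ≤ d + k then (i : ℝ) else d - 1 / ((i : ℝ) + 1)
  let V : Fin m → Fin (d + 1) → ℝ := fun i => mom d (t i)
  let D : Finset (Fin m) := univ.filter (fun i => 1 ≤ (i : ℕ) ∧ (i : ℕ) ≤ d)
  have hDval : D.map Fin.valEmbedding = Icc 1 d := by
    ext j
    rw [Finset.mem_map, Finset.mem_Icc]
    constructor
    · rintro ⟨i, hi, rfl⟩
      exact (Finset.mem_filter.1 hi).2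
    · intro hj
      exact ⟨⟨j, by omega⟩, Finset.mem_filter.2 ⟨Finset.mem_univ _, hj⟩, rfl⟩
  have hDc : D.card = d := by
    rw [← Finset.card_map Fin.valEmbedding, hDval, Nat.card_Icc]; omega
  have hmemD : ∀ i : Fin m, i ∈ D ↔ 1 ≤ (i : ℕ) ∧ (i : ℕ) ≤ d := by
    intro i; simp [D]
  have hiD : i0 ∉ D := by
    rw [hmemD]; simp [i0]
  have hne0 : ∀ i : Fin m, i ≠ i0 ↔ 1 ≤ (i : ℕ) := by
    intro i
    rw [Ne, Fin.ext_iff]
    show ¬ (i : ℕ) = 0 ↔ _
    omega
  -- the parameters are different
  have htfrac : ∀ i : Fin m, d + k < (i : ℕ) → (d : ℝ) - 1 < t i ∧ t i < d := by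
    intro i hi
    have h1 : t i = d - 1 / ((i : ℝ) + 1) := if_neg (by omega)
    rw [h1]
    have h2 : (0 : ℝ) < (i : ℕ) := by
      have : 0 < (i : ℕ) := by omega
      exact_mod_cast this
    have h3 : 0 < 1 / (((i : ℕ) : ℝ) + 1) := by positivity
    have h4 : 1 / (((i : ℕ) : ℝ) + 1) < 1 := by
      rw [div_lt_one (by positivity)]; linarith
    constructor <;> linarith
  have htint : ∀ i : Fin m, (i : ℕ) ≤ d + k → t i = (i : ℕ) := fun i hi => if_pos hi
  have hmix : ∀ i j : Fin m, (i : ℕ) ≤ d + k → d + k < (j : ℕ) → t i ≠ t j := by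
    intro i j hi hj h
    obtain ⟨h1, h2⟩ := htfrac j hj
    rw [← h, htint i hi] at h1 h2
    have h3 : (i : ℕ) < d := by exact_mod_cast h2
    have h4 : (d : ℝ) < (i : ℕ) + 1 := by linarith
    have h5 : d < (i : ℕ) + 1 := by exact_mod_cast h4
    omega
  have htinj : ∀ i j : Fin m, t i = t j → i = j := by
    intro i j h
    by_cases hi : (i : ℕ) ≤ d + k
    · by_cases hj : (j : ℕ) ≤ d + k
      · rw [htint i hi, htint j hj] at h
        exact Fin.ext (by exact_mod_cast h)
      · exact absurd h (hmix i j hi (by omega))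
    · by_cases hj : (j : ℕ) ≤ d + k
      · exact absurd h.symm (hmix j i hj (by omega))
      · have h1 : t i = d - 1 / ((i : ℝ) + 1) := if_neg hi
        have h2 : t j = d - 1 / ((j : ℝ) + 1) := if_neg hj
        rw [h1, h2] at h
        have h3 : 1 / (((i : ℕ) : ℝ) + 1) = 1 / (((j : ℕ) : ℝ) + 1) := by linarith
        have h4 : (0 : ℝ) < ((i : ℕ) : ℝ) + 1 := by positivity
        have h5 : (0 : ℝ) < ((j : ℕ) : ℝ) + 1 := by positivity
        rw [div_eq_div_iff h4.ne' h5.ne'] at h3
        have h6 : ((i : ℕ) : ℝ) = ((j : ℕ) : ℝ) := by linarith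
        exact Fin.ext (by exact_mod_cast h6)
  have hV : ∀ C : Finset (Fin m), C.card = Module.finrank ℝ (Fin (d + 1) → ℝ) → i0 ∉ C →
      Ind V C := by
    intro C hC _
    rw [hfr] at hC
    exact mom_ind t hC (fun i _ j _ h => htinj i j h)
  have hcard : Module.finrank ℝ (Fin (d + 1) → ℝ) < Fintype.card (Fin m) := by
    rw [hfr, Fintype.card_fin]; omega
  have hD : D.card + 1 = Module.finrank ℝ (Fin (d + 1) → ℝ) := by rw [hfr, hDc]
  -- the functional
  set P : ℝ[X] := ∏ j ∈ Icc 1 d, (X - C (j : ℝ)) with hP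
  have hPdeg : P.natDegree ≤ d := by
    rw [hP, Polynomial.natDegree_prod_of_monic _ _ (fun i _ => monic_X_sub_C _)]
    simp only [natDegree_X_sub_C, Finset.sum_const, smul_eq_mul, mul_one, Nat.card_Icc]
    omega
  have hPev : ∀ u : ℝ, P.eval u = ∏ j ∈ Icc 1 d, (u - (j : ℝ)) := by
    intro u
    rw [hP, Polynomial.eval_prod]
    simp
  have hPpos : ∀ u : ℝ, (d : ℝ) < u → 0 < P.eval u := by
    intro u hu
    rw [hPev]
    apply Finset.prod_pos
    intro j hj
    have : (j : ℝ) ≤ d := by exact_mod_cast (Finset.mem_Icc.1 hj).2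
    linarith
  have hPneg : ∀ u : ℝ, (d : ℝ) - 1 < u → u < d → P.eval u < 0 := by
    intro u hu1 hu2
    rw [hPev]
    obtain ⟨e, rfl⟩ : ∃ e, d = e + 1 := ⟨d - 1, by omega⟩
    rw [Finset.prod_Icc_succ_top (by omega)]
    apply mul_neg_of_pos_of_neg
    · apply Finset.prod_pos
      intro j hj
      have h1 : (j : ℝ) ≤ e := by exact_mod_cast (Finset.mem_Icc.1 hj).2
      push_cast at hu1
      linarith
    · linarith
  let f : (Fin (d + 1) → ℝ) →ₗ[ℝ] ℝ := gp d P
  have hfV : ∀ i, f (V i) = P.eval (t i) := fun i => gp_mom hPdeg (t i)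
  have hfD : ∀ j ∈ D, f (V j) = 0 := by
    intro j hj
    rw [hmemD] at hj
    rw [hfV, hPev, Finset.prod_eq_zero_iff]
    refine ⟨j, Finset.mem_Icc.2 hj, ?_⟩
    rw [htint j (by omega), sub_self]
  have hfpos : ∀ e : Fin m, d < (e : ℕ) → (e : ℕ) ≤ d + k → 0 < f (V e) := by
    intro e he1 he2
    rw [hfV, htint e he2]
    apply hPpos
    exact_mod_cast he1
  have hfneg : ∀ e : Fin m, d + k < (e : ℕ) → f (V e) < 0 := by
    intro e he
    rw [hfV]
    exact hPneg _ (htfrac e he).1 (htfrac e he).2
  have hfE : ∀ e, e ∉ D → e ≠ i0 → f (V e) ≠ 0 := by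
    intro e he hei
    rw [hmemD] at he
    rw [hne0] at hei
    by_cases h : (e : ℕ) ≤ d + k
    · exact (hfpos e (by omega) h).ne'
    · exact (hfneg e (by omega)).ne
  let v : Fin (d + 1) → ℝ := mom d (d + 1)
  have hv : 0 < f v := by
    have : f v = P.eval ((d : ℝ) + 1) := gp_mom hPdeg _
    rw [this]
    exact hPpos _ (by linarith)
  let φ : (Fin (d + 1) → ℝ) →ₗ[ℝ] ℝ := LinearMap.proj 0
  have hφV : ∀ i, φ (V i) = 1 := fun i => by
    show mom d (t i) 0 = 1
    simp [mom]
  let β0 : Fin m → ℝ := fun j => if (j : ℕ) < a then -1 else d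
  have hdpos : (0 : ℝ) < d := by
    have : 0 < d := by omega
    exact_mod_cast this
  have hβ0 : ∀ j ∈ D, β0 j ≠ 0 := by
    intro j _
    simp only [β0]
    split_ifs
    · norm_num
    · exact hdpos.ne'
  have hφ : 0 < φ (∑ j ∈ D, β0 j • V j) := by
    rw [map_sum]
    simp only [map_smul, hφV, smul_eq_mul, mul_one]
    let jd : Fin m := ⟨d, by omega⟩
    have hjd : jd ∈ D := by
      rw [hmemD]
      show 1 ≤ d ∧ d ≤ d
      omega
    rw [← Finset.add_sum_erase D _ hjd]
    have h1 : β0 jd = d := if_neg (by show ¬ d < a; omega)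
    have h2 : ∑ j ∈ D.erase jd, (-1 : ℝ) ≤ ∑ j ∈ D.erase jd, β0 j := by
      apply Finset.sum_le_sum
      intro j _
      simp only [β0]
      split_ifs
      · exact le_rfl
      · linarith
    rw [Finset.sum_const, Finset.card_erase_of_mem hjd, hDc, nsmul_eq_mul, Nat.cast_sub (by omega)] at h2
    rw [h1]
    push_cast at h2
    linarith
  obtain ⟨β, x, y, z, hz, hβs, hφz, hφx, hφy, hfx, hfy, hH⟩ :=
    exists_xyz hV hcard hD hiD hfD v hv φ β0 hβ0 hφ
  have hβlt : ∀ j ∈ D, (β j < 0 ↔ (j : ℕ) < a) := by
    intro j hj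
    rw [hβs j hj]
    simp only [β0]
    split_ifs with h
    · simp [h]
    · simp only [h, iff_false, not_lt]
      exact hdpos.le
  have hEx : ∃ e : Fin m, e ∉ D ∧ e ≠ i0 := by
    refine ⟨⟨d + 1, by omega⟩, ?_, ?_⟩
    · rw [hmemD]
      show ¬ (1 ≤ d + 1 ∧ d + 1 ≤ d)
      omega
    · rw [hne0]
      show 1 ≤ d + 1
      omega
  have Hx := half_cross V i0 D f x z hV hD hiD hfD hfE hfx.ne'
    (fun D' g h1 h2 h3 h4 h5 => (hH D' g h1 h2 h3 h4 h5).1) hEx β hz (Bset V i0 D f x β)
    Bset_i0 (Bset_D hiD) Bset_E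
  have Hy := half_cross V i0 D f y z hV hD hiD hfD hfE hfy.ne
    (fun D' g h1 h2 h3 h4 h5 => (hH D' g h1 h2 h3 h4 h5).2) hEx β hz (Bset V i0 D f y β)
    Bset_i0 (Bset_D hiD) Bset_E
  -- the sizes of the two sets
  have hBx : (Bset V i0 D f x β).card = a + k := by
    have h1 : (Bset V i0 D f x β).map Fin.valEmbedding = range a ∪ Ioc d (d + k) := by
      ext j
      rw [Finset.mem_map, Finset.mem_union, Finset.mem_range, Finset.mem_Ioc]
      constructor
      · rintro ⟨i, hi, rfl⟩
        show (i : ℕ) < a ∨ d < (i : ℕ) ∧ (i : ℕ) ≤ d + k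
        by_cases hii : i = i0
        · left
          have : (i : ℕ) = 0 := by rw [hii]
          omega
        · by_cases hiD' : i ∈ D
          · left
            exact (hβlt i hiD').1 ((Bset_D hiD i hiD').1 hi)
          · right
            have h2 := (Bset_E i hiD' hii).1 hi
            have hii' := (hne0 i).1 hii
            rw [hmemD] at hiD'
            by_contra hcon
            have h3 := hfneg i (by omega)
            have h4 := mul_neg_of_pos_of_neg hfx h3
            linarith
      · intro hj
        have hjm : j < m := by omega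
        refine ⟨⟨j, hjm⟩, ?_, rfl⟩
        by_cases hj0 : j = 0
        · subst hj0
          exact Bset_i0
        · by_cases hjd : j ≤ d
          · have hmem : (⟨j, hjm⟩ : Fin m) ∈ D := by
              rw [hmemD]
              show 1 ≤ j ∧ j ≤ d
              omega
            rw [Bset_D hiD _ hmem, hβlt _ hmem]
            show j < a
            omega
          · have h1 : (⟨j, hjm⟩ : Fin m) ∉ D := by
              rw [hmemD]
              show ¬ (1 ≤ j ∧ j ≤ d)
              omega
            have h2 : (⟨j, hjm⟩ : Fin m) ≠ i0 := by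
              rw [hne0]
              show 1 ≤ j
              omega
            rw [Bset_E _ h1 h2]
            apply mul_pos hfx
            apply hfpos
            · show d < j
              omega
            · show j ≤ d + k
              omega
    rw [← Finset.card_map Fin.valEmbedding, h1, Finset.card_union_of_disjoint, Finset.card_range,
      Nat.card_Ioc]
    · omega
    · rw [Finset.disjoint_left]
      intro j hj1 hj2
      rw [Finset.mem_range] at hj1
      rw [Finset.mem_Ioc] at hj2
      omega
  have hBy : (Bset V i0 D f y β).card = m - (d + 1 - a + k) := by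
    have h1 : (Bset V i0 D f y β).map Fin.valEmbedding = range a ∪ Ioo (d + k) m := by
      ext j
      rw [Finset.mem_map, Finset.mem_union, Finset.mem_range, Finset.mem_Ioo]
      constructor
      · rintro ⟨i, hi, rfl⟩
        show (i : ℕ) < a ∨ d + k < (i : ℕ) ∧ (i : ℕ) < m
        by_cases hii : i = i0
        · left
          have : (i : ℕ) = 0 := by rw [hii]
          omega
        · by_cases hiD' : i ∈ D
          · left
            exact (hβlt i hiD').1 ((Bset_D hiD i hiD').1 hi)
          · right
            have h2 := (Bset_E i hiD' hii).1 hi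
            have hii' := (hne0 i).1 hii
            rw [hmemD] at hiD'
            refine ⟨?_, i.2⟩
            by_contra hcon
            have h3 := hfpos i (by omega) (by omega)
            have h4 := mul_neg_of_neg_of_pos hfy h3
            linarith
      · intro hj
        have hjm : j < m := by omega
        refine ⟨⟨j, hjm⟩, ?_, rfl⟩
        by_cases hj0 : j = 0
        · subst hj0
          exact Bset_i0
        · by_cases hjd : j ≤ d
          · have hmem : (⟨j, hjm⟩ : Fin m) ∈ D := by
              rw [hmemD]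
              show 1 ≤ j ∧ j ≤ d
              omega
            rw [Bset_D hiD _ hmem, hβlt _ hmem]
            show j < a
            omega
          · have h1 : (⟨j, hjm⟩ : Fin m) ∉ D := by
              rw [hmemD]
              show ¬ (1 ≤ j ∧ j ≤ d)
              omega
            have h2 : (⟨j, hjm⟩ : Fin m) ≠ i0 := by
              rw [hne0]
              show 1 ≤ j
              omega
            rw [Bset_E _ h1 h2]
            apply mul_pos_of_neg_of_neg hfy
            apply hfneg
            show d + k < j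
            omega
    rw [← Finset.card_map Fin.valEmbedding, h1, Finset.card_union_of_disjoint, Finset.card_range,
      Nat.card_Ioo]
    · omega
    · rw [Finset.disjoint_left]
      intro j hj1 hj2
      rw [Finset.mem_range] at hj1
      rw [Finset.mem_Ioo] at hj2
      omega
  -- positivity of the first coordinates
  have hpos : ∀ u : Fin (d + 1) → ℝ, 0 < φ u → ∀ i, 0 < Function.update V i0 u i 0 := by
    intro u hu i
    by_cases hi : i = i0
    · subst hi
      rw [Function.update_self]
      exact hu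
    · rw [Function.update_of_ne hi]
      have : V i 0 = 1 := hφV i
      rw [this]
      exact one_pos
  -- general position
  have hgx : ∀ C : Finset (Fin m), C.card = Module.finrank ℝ (Fin (d + 1) → ℝ) →
      Ind (Function.update V i0 x) C := by
    apply ind_of_walls hV hcard
    intro D' g h1 h2 h3 h4
    by_cases h5 : D' = D
    · subst h5
      obtain ⟨c, hc0, rfl⟩ := wall_scale (w := f) hV hcard h1 h2
        (fun h0 => by rw [h0] at hv; simp at hv) hfD h3 h4
      rw [LinearMap.smul_apply]
      exact mul_ne_zero hc0 hfx.ne'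
    · intro h0
      have := (hH D' g h1 h2 h5 h3 h4).1
      rw [h0, zero_mul] at this
      exact lt_irrefl _ this
  have hgy : ∀ C : Finset (Fin m), C.card = Module.finrank ℝ (Fin (d + 1) → ℝ) →
      Ind (Function.update V i0 y) C := by
    apply ind_of_walls hV hcard
    intro D' g h1 h2 h3 h4
    by_cases h5 : D' = D
    · subst h5
      obtain ⟨c, hc0, rfl⟩ := wall_scale (w := f) hV hcard h1 h2
        (fun h0 => by rw [h0] at hv; simp at hv) hfD h3 h4
      rw [LinearMap.smul_apply]
      exact mul_ne_zero hc0 hfy.ne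
    · intro h0
      have := (hH D' g h1 h2 h5 h3 h4).2
      rw [h0, zero_mul] at this
      exact lt_irrefl _ this
  have hpair : ∀ U : Fin m → Fin (d + 1) → ℝ,
      (∀ C : Finset (Fin m), C.card = Module.finrank ℝ (Fin (d + 1) → ℝ) → Ind U C) →
      ∀ i j, i ≠ j → Ind U {i, j} := by
    intro U hU i j hij
    obtain ⟨C', hC1, -, hCc⟩ := Finset.exists_subsuperset_card_eq (s := {i, j})
      (t := (univ : Finset (Fin m))) (n := Module.finrank ℝ (Fin (d + 1) → ℝ))
      (Finset.subset_univ _) (by rw [Finset.card_pair hij, hfr]; omega)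
      (by rw [Finset.card_univ]; exact hcard.le)
    exact (hU C' hCc).mono hC1
  have hpairV : ∀ i j, i ≠ j → i ≠ i0 → j ≠ i0 → Ind V {i, j} := by
    intro i j hij hi hj
    obtain ⟨C', hC1, hC2, hCc⟩ := Finset.exists_subsuperset_card_eq (s := {i, j})
      (t := univ.erase i0) (n := Module.finrank ℝ (Fin (d + 1) → ℝ))
      (by
        intro l hl
        rw [Finset.mem_insert, Finset.mem_singleton] at hl
        rw [Finset.mem_erase]
        rcases hl with rfl | rfl
        · exact ⟨hi, Finset.mem_univ _⟩
        · exact ⟨hj, Finset.mem_univ _⟩) (by rw [Finset.card_pair hij, hfr]; omega)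
      (by rw [Finset.card_erase_of_mem (Finset.mem_univ _), Finset.card_univ]; omega)
    exact (hV C' hCc (fun h => Finset.notMem_erase i0 univ (hC2 h))).mono hC1
  have hz0 : ∀ j, j ≠ i0 → Ind (Function.update V i0 z) {i0, j} := by
    intro j hj l hl hs
    -- a wall through `j` different from `D`
    obtain ⟨D', hD'c, hD'i, hD'D, hjD'⟩ : ∃ D' : Finset (Fin m),
        D'.card + 1 = Module.finrank ℝ (Fin (d + 1) → ℝ) ∧ i0 ∉ D' ∧ D' ≠ D ∧ j ∈ D' := by
      by_cases hjD : j ∈ D
      · obtain ⟨e, he, hei⟩ := hEx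
        obtain ⟨j', hj', hjj⟩ : ∃ j' ∈ D, j' ≠ j := by
          have h1 : 1 < D.card := by omega
          obtain ⟨p, hp, q, hq, hpq⟩ := Finset.one_lt_card.1 h1
          by_cases h2 : p = j
          · exact ⟨q, hq, fun h => hpq (h2.trans h.symm)⟩
          · exact ⟨p, hp, h2⟩
        refine ⟨insert e (D.erase j'), ?_, ?_, ?_, ?_⟩
        · rw [Finset.card_insert_of_notMem (fun h => he (Finset.mem_of_mem_erase h)),
            Finset.card_erase_of_mem hj', hDc, hfr]
          omega
        · rw [Finset.mem_insert]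
          push Not
          exact ⟨hei.symm, fun h => hiD (Finset.mem_of_mem_erase h)⟩
        · intro h
          apply he
          rw [← h]
          exact Finset.mem_insert_self _ _
        · exact Finset.mem_insert_of_mem (Finset.mem_erase.2 ⟨hjj.symm, hjD⟩)
      · obtain ⟨D', h1, h2, h3⟩ := Finset.exists_subsuperset_card_eq (s := {j})
          (t := univ.erase i0) (n := d)
          (by
            intro l hl
            rw [Finset.mem_singleton] at hl
            rw [Finset.mem_erase, hl]
            exact ⟨hj, Finset.mem_univ _⟩) (by rw [Finset.card_singleton]; omega)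
          (by rw [Finset.card_erase_of_mem (Finset.mem_univ _), Finset.card_univ,
                Fintype.card_fin]; omega)
        refine ⟨D', by rw [h3, hfr], fun h => Finset.notMem_erase i0 univ (h2 h), ?_, ?_⟩
        · intro h
          apply hjD
          rw [← h]
          exact h1 (Finset.mem_singleton_self j)
        · exact h1 (Finset.mem_singleton_self j)
    obtain ⟨g, hg0, hg⟩ := exists_vanish V (D := D') (by omega)
    have h1 := (hH D' g hD'c hD'i hD'D hg0 hg).1
    have hgz : g z ≠ 0 := by
      intro h0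
      rw [h0, mul_zero] at h1
      exact lt_irrefl _ h1
    have hli0 : l i0 = 0 := by
      rw [sum_update] at hs
      have h2 := congrArg g hs
      rw [map_add, map_smul, map_sum, map_zero, Finset.sum_eq_zero, add_zero, smul_eq_mul] at h2
      · rcases mul_eq_zero.1 h2 with h | h
        · exact h
        · exact absurd h hgz
      · intro i hi'
        rw [map_smul]
        by_cases hij : i = j
        · rw [hij, hg j hjD', smul_zero]
        · rw [hl i (by
            rw [Finset.mem_insert, Finset.mem_singleton]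
            push Not
            exact ⟨Finset.ne_of_mem_erase hi', hij⟩), zero_smul]
    have hI : Ind V {j} := by
      obtain ⟨e, he, hei⟩ := hEx
      by_cases hje : j = e
      · have hjd : (⟨1, by omega⟩ : Fin m) ∈ D := by
          rw [hmemD]
          show 1 ≤ 1 ∧ 1 ≤ d
          omega
        have hne : j ≠ ⟨1, by omega⟩ := by
          intro h
          rw [hje] at h
          exact he (h ▸ hjd)
        exact (hpairV j ⟨1, by omega⟩ hne hj (fun h => hiD (h ▸ hjd))).mono (by simp)
      · exact (hpairV j e hje hj hei).mono (by simp)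
    refine ((ind_update (by
      rw [Finset.mem_singleton]; exact hj.symm)).2 hI) l ?_ hs
    intro i hi
    rw [Finset.mem_singleton] at hi
    by_cases hii : i = i0
    · rw [hii, hli0]
    · exact hl i (by
        rw [Finset.mem_insert, Finset.mem_singleton]
        push Not
        exact ⟨hii, hi⟩)
  have hzpair : ∀ i j, i ≠ j → Ind (Function.update V i0 z) {i, j} := by
    intro i j hij
    by_cases hi : i = i0
    · rw [hi]
      exact hz0 j (fun h => hij (hi.trans h.symm))
    · by_cases hj : j = i0
      · rw [hj, Finset.pair_comm]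
        exact hz0 i hi
      · refine (ind_update ?_).2 (hpairV i j hij hi hj)
        rw [Finset.mem_insert, Finset.mem_singleton]
        push Not
        exact ⟨Ne.symm hi, Ne.symm hj⟩
  -- the affine points
  obtain ⟨px, hpxi, hpx⟩ := exists_affine (Function.update V i0 x) (hpos x hφx) (hpair _ hgx)
  obtain ⟨py, hpyi, hpy⟩ := exists_affine (Function.update V i0 y) (hpos y hφy) (hpair _ hgy)
  obtain ⟨pz, hpzi, hpz⟩ := exists_affine (Function.update V i0 z) (hpos z hφz) hzpair
  refine ⟨univ.map ⟨pz, hpzi⟩, univ.map ⟨px, hpxi⟩, univ.map ⟨py, hpyi⟩, by simp, by simp, by simp,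
    ?_, ?_, ?_⟩
  · apply ind_genPos hpxi (by omega)
    intro C hC
    rw [hpx]
    exact ind_smul (fun i => inv_pos.2 (hpos x hφx i)) (hgx C (by rw [hfr]; exact hC))
  · apply ind_genPos hpyi (by omega)
    intro C hC
    rw [hpy]
    exact ind_smul (fun i => inv_pos.2 (hpos y hφy i)) (hgy C (by rw [hfr]; exact hC))
  · intro s
    rw [radonCount_eq_card hpzi i0, radonCount_eq_card hpxi i0, radonCount_eq_card hpyi i0,
      TT_affine (hpos z hφz) hpz, TT_affine (hpos x hφx) hpx, TT_affine (hpos y hφy) hpy]
    have key : ∀ (u : Fin (d + 1) → ℝ) (B : Finset (Fin m)), i0 ∈ B →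
        (∀ A, Rad (Function.update V i0 u) A ↔ Rad (Function.update V i0 z) A ∧ A ≠ B ∧ A ≠ Bᶜ) →
        TT (Function.update V i0 u) i0 = (TT (Function.update V i0 z) i0).erase B := by
      intro u B hB h
      ext A
      rw [Finset.mem_erase, mem_TT, mem_TT, h A]
      constructor
      · rintro ⟨h1, h2, h3, -⟩
        exact ⟨h3, h1, h2⟩
      · rintro ⟨h3, h1, h2⟩
        refine ⟨h1, h2, h3, ?_⟩
        intro h4
        rw [h4] at h1
        exact (Finset.mem_compl.1 h1) hB
    constructor
    · rw [filter_erase_card (mem_TT.2 ⟨Bset_i0, Hx.2⟩) (key x _ Bset_i0 Hx.1)]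
      congr 1
      rw [Finset.card_compl, hBx, Fintype.card_fin]
    · rw [filter_erase_card (mem_TT.2 ⟨Bset_i0, Hy.2⟩) (key y _ Bset_i0 Hy.1)]
      congr 1
      rw [Finset.card_compl, hBy, Fintype.card_fin]
      have : m - (m - (d + 1 - a + k)) = d + 1 - a + k := by omega
      rw [this]

end

end Pool.Agent.H77.RL
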